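import Pool.Agent.Work.MP_25cd3b_gt.M.Defs

set_option autoImplicit false

/-!
# MP_13b5d9_gt, block EC: definitions

A closed manifold `N` with universal covering `R^n` is `R^n / G` as in MP_25cd3b_gt/M/Defs.  A flow on
`N` whose lift to `R^n` is the group of translations along a vector `e` is the same as a vector `e`
such that the group commutes with these translations; for `N = M x S^1` and `R^n = R^m x R` the
translations along the last coordinate are the lifts of the rotations of the circle.
-/

open MeasureTheory Set Filter Topology
open scoped ContDiff ENNReal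

namespace Pool.Agent.EC

open Pool.Agent.MLS

/-- the translations along the vector `e` commute with the group, so they are the lifts of a flow
of the quotient (for a product with a circle: of the rotations) -/
structure Vert (n : ℕ) (G : Type) [Group G] [MulAction G (E n)] (e : E n) : Prop where
  ne : e ≠ 0
  comm : ∀ (a : G) (x : E n) (s : ℝ), a • (x + s • e) = a • x + s • e

/-- the form is invariant under the translations along `e` -/
def TInv {n : ℕ} (g : Form n) (e : E n) : Prop := ∀ (x : E n) (s : ℝ), g.val (x + s • e) = g.val x

/-- for all points `x` and `y = x + s e` the form at `y` lies between the form at `x` and `J` times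
the form at `x`, where `J` is the quotient of the volume densities at `y` and `x` -/
def Between {n : ℕ} (g : Form n) (e : E n) : Prop :=
  ∀ (x : E n) (s : ℝ),
    (∀ v, g.val x v v ≤ g.val (x + s • e) v v ∧
      g.val (x + s • e) v v ≤ dens g (x + s • e) / dens g x * g.val x v v) ∨
    (∀ v, g.val (x + s • e) v v ≤ g.val x v v ∧
      dens g (x + s • e) / dens g x * g.val x v v ≤ g.val (x + s • e) v v)

/-- The universal covering is the Riemannian product of `(R^m, k)` and the line, in such a way that
the translations along `e` are the translations of the line (with speed `l`) and every element of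
the group is the product of a map of `R^m` and a translation of the line. -/
structure SplitData (m : ℕ) (G : Type) [Group G] [MulAction G (E (m + 1))] (g : Form (m + 1))
    (e : E (m + 1)) (l : ℝ) (k : Form m) (Φ : E (m + 1) ≃ E m × ℝ) : Prop where
  pos : 0 < l
  riem : Riem k
  smooth : ContDiff ℝ ∞ Φ
  smooth_symm : ContDiff ℝ ∞ Φ.symm
  metric : ∀ x u v, g.val x u v = k.val (Φ x).1 (fderiv ℝ Φ x u).1 (fderiv ℝ Φ x v).1 +
    (fderiv ℝ Φ x u).2 * (fderiv ℝ Φ x v).2
  trans : ∀ (x : E (m + 1)) (s : ℝ), Φ (x + s • e) = ((Φ x).1, (Φ x).2 + l * s)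
  deck : ∀ a : G, ∃ (f : E m → E m) (h : ℝ), ∀ x, Φ (a • x) = (f (Φ x).1, (Φ x).2 + h)

/-! ### auxiliary definitions of the proof -/

/-- the form translated by `s e` -/
noncomputable def rot {n : ℕ} (g : Form n) (e : E n) (s : ℝ) : Form n where
  val := fun x => g.val (x + s • e)
  smooth := g.smooth.comp (contDiff_id.add contDiff_const)
  symm := fun _ u v => g.symm _ u v
  nonneg := fun _ v => g.nonneg _ v

/-- lower bound for the `g2` length of the unit speed geodesics of `g1` -/
def SegP {n : ℕ} (g1 g2 : Form n) : Prop :=
  ∃ C', 0 ≤ C' ∧ ∀ c : ℝ → E n, IsGeo g1 c →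
    (∀ t, g1.val (c t) (deriv c t) (deriv c t) = 1) → ∀ T, 0 ≤ T →
    T - C' ≤ ∫ t in (0 : ℝ)..T, nrm g2 (c t) (deriv c t)

/-- volume of the quotient -/
noncomputable def Vl {n : ℕ} (χ : E n → ℝ) (g : Form n) : ℝ := ∫ x, χ x * dens g x

/-- energy of the identity map from `g1` to `g2` -/
noncomputable def En {n : ℕ} (χ : E n → ℝ) (g1 g2 : Form n) : ℝ :=
  ∫ x, χ x * (tr g1 g2 x * dens g1 x)

/-- integral of `g(e, .)` over the segment from `x` to `y` -/
noncomputable def aa {n : ℕ} (g : Form n) (e x y : E n) : ℝ :=
  ∫ τ in (0 : ℝ)..1, g.val (x + τ • (y - x)) e (y - x)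

end Pool.Agent.EC
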