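import Pool.Agent.Work.MP_13b5d9_gt.EC.Stmts

set_option autoImplicit false

/-!
# MP_13b5d9_gt, block EC: final form of the theorem
-/

open MeasureTheory Set Filter Topology
open scoped ContDiff ENNReal

namespace Pool.Agent.EC

open Pool.Agent.MLS

/-- `g` is conformal to a form which is invariant under the translations along `e` -/
def ConfInv {n : ℕ} (g : Form n) (e : E n) : Prop :=
  ∃ (H : Form n) (f : E n → ℝ), TInv H e ∧ (∀ x, 0 < f x) ∧
    ∀ x u v, g.val x u v = f x ^ 2 * H.val x u v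

/-- `g = p^2 τ^2 + q^2 h` with an invariant one form `τ`, `τ e > 0`, an invariant form `h ≥ 0` with
`h(e, .) = 0`, and positive functions `p`, `q` such that along every orbit the quotients
`R = p y / p x`, `r = q y / q x` satisfy `1 ≤ R ≤ r^(n-1)` or `r^(n-1) ≤ R ≤ 1` -/
def TwoBlocks {n : ℕ} (g : Form n) (e : E n) : Prop :=
  ∃ (h : Form n) (τ : E n → E n →L[ℝ] ℝ) (p q : E n → ℝ), TInv h e ∧
    (∀ x v, h.val x e v = 0) ∧ (∀ x, 0 < τ x e) ∧ (∀ (x : E n) (s : ℝ), τ (x + s • e) = τ x) ∧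
    (∀ x, 0 < p x) ∧ (∀ x, 0 < q x) ∧
    (∀ x u v, g.val x u v = p x ^ 2 * (τ x u * τ x v) + q x ^ 2 * h.val x u v) ∧
    ∀ (x : E n) (s : ℝ), (1 ≤ p (x + s • e) / p x ∧
        p (x + s • e) / p x ≤ (q (x + s • e) / q x) ^ (n - 1)) ∨
      (p (x + s • e) / p x ≤ 1 ∧ (q (x + s • e) / q x) ^ (n - 1) ≤ p (x + s • e) / p x)

/-- the second coordinate of the splitting is `l` times the linear coordinate `λ` if `e` is
orthogonal to the kernel of `λ` everywhere -/
theorem second_coord {m : ℕ} {G : Type} [Group G] [MulAction G (E (m + 1))] {g : Form (m + 1)}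
    {e : E (m + 1)} {l : ℝ} {k : Form m} {Φ : E (m + 1) ≃ E m × ℝ}
    (hS : SplitData m G g e l k Φ) (lam : E (m + 1) →L[ℝ] ℝ) (hlam : lam e = 1)
    (hg : ∀ x v, lam v = 0 → g.val x e v = 0) (x y : E (m + 1)) :
    (Φ x).2 - (Φ y).2 = l * (lam x - lam y) := by
  have hd : Differentiable ℝ Φ := hS.smooth.differentiable (by simp)
  -- the derivative of `Φ` in the direction `e`
  have hde : ∀ x, fderiv ℝ Φ x e = ((0 : E m), l) := by
    intro x
    have h1 : HasDerivAt (fun s : ℝ => Φ (x + s • e)) (fderiv ℝ Φ x e) 0 := by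
      have h2 : HasDerivAt (fun s : ℝ => x + s • e) e 0 := by
        simpa using ((hasDerivAt_id (0 : ℝ)).smul_const e).const_add x
      have h3 : HasFDerivAt Φ (fderiv ℝ Φ x) (x + (0 : ℝ) • e) := by
        rw [zero_smul, add_zero]
        exact (hd x).hasFDerivAt
      exact h3.comp_hasDerivAt (0 : ℝ) h2
    have h4 : HasDerivAt (fun s : ℝ => Φ (x + s • e)) ((0 : E m), l) 0 := by
      have h5 : (fun s : ℝ => Φ (x + s • e)) = fun s : ℝ => ((Φ x).1, (Φ x).2 + l * s) :=
        funext fun s => hS.trans x s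
      rw [h5]
      have h6 : HasDerivAt (fun s : ℝ => (Φ x).2 + l * s) l 0 := by
        simpa using ((hasDerivAt_id (0 : ℝ)).const_mul l).const_add (Φ x).2
      exact (hasDerivAt_const (0 : ℝ) (Φ x).1).prodMk h6
    exact h1.unique h4
  have h2 : ∀ x v, g.val x e v = l * (fderiv ℝ Φ x v).2 := by
    intro x v
    rw [hS.metric x e v, hde x]
    simp
  -- the derivative of the second coordinate
  have h3 : ∀ x v, (fderiv ℝ Φ x v).2 = l * lam v := by
    intro x v
    have hv : v = lam v • e + (v - lam v • e) := by abel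
    have h4 : lam (v - lam v • e) = 0 := by
      rw [map_sub, map_smul, hlam, smul_eq_mul, mul_one, sub_self]
    have h5 := hg x _ h4
    rw [h2 x] at h5
    have h6 : (fderiv ℝ Φ x (v - lam v • e)).2 = 0 := by
      rcases mul_eq_zero.1 h5 with h | h
      · exact absurd h hS.pos.ne'
      · exact h
    rw [map_sub, map_smul, hde x] at h6
    simp only [Prod.snd_sub, Prod.smul_snd, smul_eq_mul] at h6
    linarith
  set F : E (m + 1) → ℝ := fun x => (Φ x).2 - l * lam x with hF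
  have hFd : ∀ x, HasFDerivAt F (0 : E (m + 1) →L[ℝ] ℝ) x := by
    intro x
    have a1 : HasFDerivAt (fun x => (Φ x).2)
        ((ContinuousLinearMap.snd ℝ (E m) ℝ).comp (fderiv ℝ Φ x)) x :=
      (ContinuousLinearMap.snd ℝ (E m) ℝ).hasFDerivAt.comp x (hd x).hasFDerivAt
    have a2 : HasFDerivAt (fun x => l * lam x) (l • lam) x := lam.hasFDerivAt.const_mul l
    have a3 := a1.sub a2
    have a4 : (ContinuousLinearMap.snd ℝ (E m) ℝ).comp (fderiv ℝ Φ x) - l • lam = 0 := by
      ext v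
      simp [h3 x v]
    rw [a4] at a3
    exact a3
  have hc : F x = F y := is_const_of_fderiv_eq_zero (𝕜 := ℝ)
    (fun x => (hFd x).differentiableAt) (fun x => (hFd x).fderiv) x y
  simp only [hF] at hc
  linarith

/-- final form -/
def StFin : Prop := ∀ (m : ℕ) (G : Type) [Group G] [MulAction G (E (m + 1))], 2 ≤ m →
  Cocompact (m + 1) G → ∀ e : E (m + 1), Vert (m + 1) G e → ∀ g : Form (m + 1), Riem g →
  Inv G g → Minz g → (ConfInv g e ∨ TwoBlocks g e ∨ Between g e) →
  TInv g e ∧ ∃ (l : ℝ) (k : Form m) (Φ : E (m + 1) ≃ E m × ℝ), SplitData m G g e l k Φ ∧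
    ∀ lam : E (m + 1) →L[ℝ] ℝ, lam e = 1 → (∀ x v, lam v = 0 → g.val x e v = 0) →
      ∀ x y, (Φ x).2 - (Φ y).2 = l * (lam x - lam y)

theorem pr_Fin (h1 : StThK) (h2 : StConf) (h3 : StBlk) : StFin := by
  intro m G _ _ hm hC e hV g hR hI hM hcl
  have hB : Between g e := by
    rcases hcl with ⟨H, f, hT, hf, hg⟩ | ⟨h, τ, p, q, hT, he, hτ, hτi, hp, hq, hg, hr⟩ | h
    · exact h2 (m + 1) (by omega) g H e f hR hf hg hT
    · exact h3 (m + 1) (by omega) g h e τ p q hR hτ hτi hp hq he hT hg hr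
    · exact h
  obtain ⟨hT, l, k, Φ, hS⟩ := h1 m G hC e hV g hR hI hM hB
  exact ⟨hT, l, k, Φ, hS, fun lam hlam hg x y => second_coord hS lam hlam hg x y⟩

end Pool.Agent.EC
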