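import Pool.Agent.Work.MP_25cd3b_gt.M.Stmts
import Pool.Agent.Work.MP_13b5d9_gt.EC.Defs

set_option autoImplicit false

/-!
# MP_13b5d9_gt, block EC: statements of the items, each with its complete proof

Metrics without conjugate points on manifolds with a flow by translations (products with a circle).
The statements `StX` without the prefix `EC` in the comments are those of MP_25cd3b_gt/M/Stmts.
-/

open MeasureTheory Set Filter Topology
open scoped ContDiff ENNReal

namespace Pool.Agent.EC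

open Pool.Agent.MLS

/-- Derivatives.  Differentiate `a (x + s e) = a x + s e` in `s` at `0` and in `x`; `val` of the
translated form is `g.val (x + s e)`. -/
def StRotI : Prop := ∀ (n : ℕ) (G : Type) [Group G] [MulAction G (E n)], Cocompact n G →
  ∀ e : E n, Vert n G e → (∀ (a : G) (x : E n), dac a x e = e) ∧
  (∀ (a : G) (x : E n) (s : ℝ), dac a (x + s • e) = dac a x) ∧
  ∀ g : Form n, Inv G g → ∀ s : ℝ, Inv G (rot g e s)

/-- Bounded displacement.  `C = sup over x of gd g x (x + s e)` is finite: the function is continuous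
(`StCtsD`) and invariant (`StInvD` and `comm`), so its supremum is the maximum on a compact `K` with
`G K = R^n` (if `K` is empty there is nothing to prove).  For a unit speed geodesic `c` and `T ≥ 0`,
with the triangle inequality (`StGd`, IsPM):
`T = gd (c 0) (c T) ≤ gd (c 0) (c 0 + s e) + gd (c 0 + s e) (c T + s e) + gd (c T + s e) (c T)
≤ 2 C + ∫ t in 0..T, nrm g (c t + s e) (c' t)`, by the last part of `StGd` for the `C^1` curve
`t ↦ c t + s e` (derivative `c'`), and `nrm (rot g e s) (c t) (c' t) = nrm g (c t + s e) (c' t)`. -/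
def StSegR : Prop := ∀ (n : ℕ) (G : Type) [Group G] [MulAction G (E n)], Cocompact n G →
  ∀ e : E n, Vert n G e → ∀ g : Form n, Riem g → Inv G g → Minz g → ∀ s : ℝ, SegP g (rot g e s)

/-- The key inequality (`StKey` of MP_25cd3b_gt with the hypothesis `SegP g1 g2` in place of
`Minz`, `HypG`, `L g1 ≤ L g2`; same proof). -/
def StKeyS : Prop := ∀ (n : ℕ) (G : Type) [Group G] [MulAction G (E n)], Cocompact n G →
  ∀ g1 g2 : Form n, Riem g1 → Inv G g1 → Inv G g2 → SegP g1 g2 → ∀ χ : E n → ℝ, PU G χ →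
  ∫ z in {z : W n | Hm g1 z ≤ 1 / 2}, χ z.1 * g1.val z.1 (vel g1 z) (vel g1 z) ≤
    ∫ z in {z : W n | Hm g1 z ≤ 1 / 2}, χ z.1 * (nrm g1 z.1 (vel g1 z) * nrm g2 z.1 (vel g1 z))

/-- Main inequality and its equality case (`StMain` of MP_25cd3b_gt with the hypothesis
`SegP g1 g2`; same proof). -/
def StMainS : Prop := ∀ (n : ℕ) (G : Type) [Group G] [MulAction G (E n)], Cocompact n G →
  ∀ g1 g2 : Form n, Riem g1 → Inv G g1 → Inv G g2 → SegP g1 g2 → ∀ χ : E n → ℝ, PU G χ →
  n * Vl χ g1 ≤ En χ g1 g2 ∧ (En χ g1 g2 ≤ n * Vl χ g1 → g1 = g2)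

/-- Two positive definite matrices.  Let `A = Q - P` and `B = J P - Q`, both positive semidefinite
(or both negative semidefinite).  `P⁻¹ - Q⁻¹ = Q⁻¹ A Q⁻¹ + Q⁻¹ A P⁻¹ A Q⁻¹` (insert
`P⁻¹ = Q⁻¹ + Q⁻¹ A P⁻¹` twice) is positive semidefinite if `A` is; if `-A` is, exchange `P` and `Q`:
`Q⁻¹ - P⁻¹ = P⁻¹ (-A) P⁻¹ + P⁻¹ A Q⁻¹ A P⁻¹`.  The trace of the product of two positive semidefinite
matrices is `≥ 0`, so in both cases `tr ((P⁻¹ - Q⁻¹) (J P - Q)) ≥ 0`, that is
`J n - tr (P⁻¹ Q) - J tr (Q⁻¹ P) + n ≥ 0`. -/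
def StMat : Prop := ∀ (n : ℕ) (P Q : Matrix (Fin n) (Fin n) ℝ), P.PosDef → Q.PosDef → ∀ J : ℝ,
  (((Q - P).PosSemidef ∧ (J • P - Q).PosSemidef) ∨
    ((P - Q).PosSemidef ∧ (Q - J • P).PosSemidef)) →
  (P⁻¹ * Q).trace + J * (Q⁻¹ * P).trace ≤ n * (1 + J)

/-- The symmetrized energy density.  `P = gm g x` and `Q = gm g (x + s e)` are positive definite
(`Riem`), `gm (rot g e s) x = Q`, `gm (rot g e (-s)) (x + s e) = P`, `J = dens g (x + s e) / dens g x`
with `dens g x > 0`; the inequalities of `Between` for `v = ∑ v_i e_i` say that the differences are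
positive semidefinite.  Multiply the inequality of `StMat` by `dens g x`. -/
def StPair : Prop := ∀ (n : ℕ) (g : Form n) (e : E n), Riem g → Between g e →
  ∀ (x : E n) (s : ℝ), tr g (rot g e s) x * dens g x +
    tr g (rot g e (-s)) (x + s • e) * dens g (x + s • e) ≤ n * (dens g x + dens g (x + s • e))

/-- Unfolding along the flow.  Substitute `y = x + s e` (Lebesgue measure is invariant under
translations): the left side is `∫ χ (y - s e) f y dens g y dy`.  Apply `StUnf` on `R^n` with the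
measure `dens g dx`, `ρ a = a • ·` (measure preserving by `StDens`, countable group by `StCnt`),
`a = ofReal χ (· - s e)`, `b = ofReal χ`, `F = ofReal f`; the sum of `χ (a x - s e)
= χ (a (x - s e))` over the group is `1`.  All functions are continuous and `χ` has compact support,
so the integrals are finite and may be written as `lintegral`. -/
def StUnfE : Prop := ∀ (n : ℕ) (G : Type) [Group G] [MulAction G (E n)], Cocompact n G →
  ∀ e : E n, Vert n G e → ∀ g : Form n, Riem g → Inv G g → ∀ χ : E n → ℝ, PU G χ →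
  ∀ f : E n → ℝ, Continuous f → (∀ x, 0 ≤ f x) → (∀ (a : G) x, f (a • x) = f x) → ∀ s : ℝ,
  ∫ x, χ x * (f (x + s • e) * dens g (x + s • e)) = ∫ x, χ x * (f x * dens g x)

/-- Invariance.  Let `χ` be as in `StPU`, `V = Vl χ g`, `E_s = En χ g (rot g e s)`.  By `StSegR`,
`StRotI`, `StMainS`: `n V ≤ E_s` for every `s`, with equality only if `g = rot g e s`.  Integrate
`χ` times `StPair`: by `StUnfE` with `f = tr g (rot g e (-s))` (invariant, continuous and `≥ 0` by
`StTrI`) and with `f = 1` this is `E_s + E_(-s) ≤ 2 n V`.  So `E_s ≤ n V`. -/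
def StInvar : Prop := ∀ (n : ℕ) (G : Type) [Group G] [MulAction G (E n)], Cocompact n G →
  ∀ e : E n, Vert n G e → ∀ g : Form n, Riem g → Inv G g → Minz g → Between g e → TInv g e

/-- Vertical geodesics.  Let `r = (g_x(e,e))^(1/2) > 0` and `c t = x + (t / r) e`.  Then `g` is
constant along `c`, `g(c', w)` is constant and `fderiv g.val (c t) w (c', c') =
fderiv g.val x w e e / r^2 = 0` (differentiate `TInv`), so `c` is a unit speed geodesic; use `Minz`
for the parameters `0` and `r T`. -/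
def StLine : Prop := ∀ (n : ℕ) (g : Form n) (e : E n), e ≠ 0 → Riem g → Minz g → TInv g e →
  ∀ x : E n, (∀ w, fderiv ℝ g.val x w e e = 0) → ∀ T, 0 ≤ T →
  gd g x (x + T • e) = Real.sqrt (g.val x e e) * T

/-- Constant length.  `q x = g_x(e, e)` is continuous and invariant (`dac a x e = e`), so it has a
minimum at some `x₀` and a maximum at some `x₁` on `R^n` (compact `K` with `G K = R^n`); there the
derivative of `q` vanishes.  Translations along `e` preserve lengths of paths, so
`gd (x₀ + T e) (x₁ + T e) = gd x₀ x₁`.  By `StLine`, `(q x₁)^(1/2) T = gd x₁ (x₁ + T e) ≤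
2 gd x₀ x₁ + (q x₀)^(1/2) T` for all `T ≥ 0`, so `q x₁ ≤ q x₀` and `q` is constant. -/
def StCst : Prop := ∀ (n : ℕ) (G : Type) [Group G] [MulAction G (E n)], Cocompact n G →
  ∀ e : E n, Vert n G e → ∀ g : Form n, Riem g → Inv G g → Minz g → TInv g e →
  ∃ l : ℝ, 0 < l ∧ ∀ x, g.val x e e = l ^ 2

/-- Climbing.  Let `b τ = x + τ (y - x)`, `α τ = g_(b τ)(e, y - x) / l^2`,
`ρ τ = κ τ - ∫ 0..τ α`, `σ τ = b τ + ρ τ e` (a `C^1` curve from `x` to
`y + (κ - aa g e x y / l^2) e`).  `g_(σ τ) = g_(b τ)` by `TInv`, and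
`g(σ', σ') = g(y - x, y - x) + 2 ρ' g(e, y - x) + ρ'^2 l^2
= l^2 κ^2 + (g(y - x, y - x) - g(e, y - x)^2 / l^2)` because `ρ' + α = κ`.  Let `K^2` be an upper
bound of `g_(b τ)(y - x, y - x)` for `τ ∈ [0, 1]`, and use the last part of `StGd`. -/
def StClimb : Prop := ∀ (n : ℕ) (g : Form n) (e : E n) (l : ℝ), 0 < l → Riem g → TInv g e →
  (∀ x, g.val x e e = l ^ 2) → ∀ x y : E n, ∃ K : ℝ, 0 ≤ K ∧ ∀ κ : ℝ,
  gd g x (y + (κ - aa g e x y / l ^ 2) • e) ≤ Real.sqrt (l ^ 2 * κ ^ 2 + K ^ 2)

/-- Triangles.  `aa g e y x = - aa g e x y` (substitute `τ ↦ 1 - τ`), so it is enough to prove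
`A := (aa x y + aa y z + aa z x) / l^2 ≥ 0`, and to apply this to `x, z, y` too.  For `T` large let
`κ = (T + A) / 3 > 0` and climb along the three segments (`StClimb`; by `TInv` the distance is
invariant under translations along `e`): the end point is `x + T e`, so by `StLine` and the triangle
inequality `l T ≤ 3 l κ + (K₁^2 + K₂^2 + K₃^2) / (2 l κ) = l (T + A) + O(1/T)`. -/
def StTri : Prop := ∀ (n : ℕ) (g : Form n) (e : E n) (l : ℝ), 0 < l → e ≠ 0 → Riem g → Minz g →
  TInv g e → (∀ x, g.val x e e = l ^ 2) → ∀ x y z : E n,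
  aa g e x y + aa g e y z + aa g e z x = 0

/-- The potential.  `T x = aa g e 0 x / l`.  By `StTri` `T (x + v) - T x = aa g e x (x + v) / l =
l⁻¹ ∫ g_(x + τ v)(e, v) dτ`, which is `l⁻¹ g_x(e, v) + o(‖v‖)` by continuity.  So `T` is
differentiable with the smooth derivative `l⁻¹ g.val x e`, hence smooth. -/
def StPot : Prop := ∀ (n : ℕ) (g : Form n) (e : E n) (l : ℝ), 0 < l →
  (∀ x y z : E n, aa g e x y + aa g e y z + aa g e z x = 0) →
  ∃ T : E n → ℝ, ContDiff ℝ ∞ T ∧ ∀ x v, fderiv ℝ T x v = g.val x e v / l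

/-- Splitting.  Let `P : R^(m+1) → R^m` be a surjective linear map with kernel spanned by `e`, and
`S` a linear section of `P` (`P ∘ S = id`).  `Φ x = (P x, T x)`.  As `fderiv T x e = l` we have
`T (x + s e) = T x + l s`, so `Φ` is bijective: the inverse is
`(p, t) ↦ S p + ((t - T (S p)) / l) e`, smooth.  The form
`k_p (u, v) = g_(S p) (S u, S v) - fderiv T (S p) (S u) fderiv T (S p) (S v)` is smooth and
symmetric, and positive definite by the strict inequality of Cauchy and Schwarz for `e` and `S u`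
(which are linearly independent for `u ≠ 0`; `g(e,e) = l^2`).  For `x = S (P x) + s e`,
`u = S (P u) + r e`: both `g` and `fderiv T` are invariant under translations along `e`, and
`g(u, v) - dT(u) dT(v)` does not change when multiples of `e` are added to `u` or `v`
(`g(e, v) = l dT(v)`, `dT(e) = l`).  Deck group: `T ∘ a - T` has derivative
`g_(a x)(e, dac a x v) / l - g_x(e, v) / l = 0` as `dac a x e = e`; so it is a constant `h`; and
`P (a x)` depends only on `P x` as `a (x + s e) = a x + s e`: `f p = P (a (S p))`. -/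
def StSplit : Prop := ∀ (m : ℕ) (G : Type) [Group G] [MulAction G (E (m + 1))],
  Cocompact (m + 1) G → ∀ e : E (m + 1), Vert (m + 1) G e → ∀ g : Form (m + 1), Riem g →
  Inv G g → TInv g e → ∀ l : ℝ, 0 < l → (∀ x, g.val x e e = l ^ 2) →
  ∀ T : E (m + 1) → ℝ, ContDiff ℝ ∞ T → (∀ x v, fderiv ℝ T x v = g.val x e v / l) →
  ∃ (k : Form m) (Φ : E (m + 1) ≃ E m × ℝ), SplitData m G g e l k Φ

/-- THEOREM K.  A metric without conjugate points on `R^(m+1) / G` such that the metrics at the
points of every orbit of the flow are related by `Between` is invariant under the flow, and its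
universal covering is the Riemannian product of a metric of `R^m` and the line.  (`StInvar`,
`StCst`, `StTri`, `StPot`, `StSplit`.) -/
def StThK : Prop := ∀ (m : ℕ) (G : Type) [Group G] [MulAction G (E (m + 1))],
  Cocompact (m + 1) G → ∀ e : E (m + 1), Vert (m + 1) G e → ∀ g : Form (m + 1), Riem g →
  Inv G g → Minz g → Between g e →
  TInv g e ∧ ∃ (l : ℝ) (k : Form m) (Φ : E (m + 1) ≃ E m × ℝ), SplitData m G g e l k Φ

/-- Conformal metrics satisfy `Between`.  With `r = (f y / f x)^2` one has `g_y = r g_x` and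
`dens g y / dens g x = r^(n/2)` (`gm g = f^2 gm H`, determinant `f^(2n) det (gm H)`), `n ≥ 2`; if
`r ≥ 1` then `1 ≤ r ≤ r^(n/2)`, otherwise `r^(n/2) ≤ r ≤ 1`. -/
def StConf : Prop := ∀ (n : ℕ), 2 ≤ n → ∀ (g H : Form n) (e : E n) (f : E n → ℝ), Riem g →
  (∀ x, 0 < f x) → (∀ x u v, g.val x u v = f x ^ 2 * H.val x u v) → TInv H e → Between g e

/-- Two blocks.  Let `g = p^2 τ^2 + q^2 h` with a one form `τ` with `τ e > 0` and a form `h ≥ 0` with
`h(e, .) = 0`, both invariant under the translations, and positive functions `p`, `q`.  For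
`y = x + s e` let `R = p y / p x`, `r = q y / q x`, and `S v = R w + r (v - w)` with
`w = (τ v / τ e) e`.  Then `g_y (v, v) = g_x (S v, S v)` (as `τ (v - w) = 0`, `h(w, .) = 0`), so
`gm g y = Sᵀ (gm g x) S` and `dens g y / dens g x = det S = R r^(n-1)` (the matrix of `S` is `r 1 +
(R - r) e τ / τ e`; `det (1 + u vᵀ) = 1 + vᵀ u`).  `g_x (v, v) = A + B`, `g_y (v, v) = R^2 A + r^2 B`
with `A, B ≥ 0`.  If `1 ≤ R ≤ r^(n-1)` then `r ≥ 1`, `1 ≤ R^2 ≤ R r^(n-1)` and
`1 ≤ r^2 ≤ R r^(n-1)` as `n - 1 ≥ 2`; the other case is similar.  (`R = 1`: all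
metrics `τ^2 + q^2 h`, in particular all loops of metrics in one conformal class.) -/
def StBlk : Prop := ∀ (n : ℕ), 3 ≤ n → ∀ (g h : Form n) (e : E n) (τ : E n → E n →L[ℝ] ℝ)
  (p q : E n → ℝ), Riem g → (∀ x, 0 < τ x e) → (∀ (x : E n) (s : ℝ), τ (x + s • e) = τ x) →
  (∀ x, 0 < p x) → (∀ x, 0 < q x) → (∀ x v, h.val x e v = 0) → TInv h e →
  (∀ x u v, g.val x u v = p x ^ 2 * (τ x u * τ x v) + q x ^ 2 * h.val x u v) →
  (∀ (x : E n) (s : ℝ), (1 ≤ p (x + s • e) / p x ∧
      p (x + s • e) / p x ≤ (q (x + s • e) / q x) ^ (n - 1)) ∨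
    (p (x + s • e) / p x ≤ 1 ∧ (q (x + s • e) / q x) ^ (n - 1) ≤ p (x + s • e) / p x)) →
  Between g e

end Pool.Agent.EC
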