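import Mathlib
import Pool.Agent.Work.MP_13b5d9_gt.EC.Stmts

set_option autoImplicit false

open MeasureTheory Set Filter Topology Matrix
open scoped ContDiff ENNReal

namespace Pool.Agent.EC

open Pool.Agent.MLS

namespace IBlk

variable {n : ℕ}

lemma sum_ee (v : E n) : v = ∑ i, v i • ee i := by
  ext j
  simp [ee, Pi.single_apply]

/-- product of the three matrices -/
lemma mat (t u : Fin n → ℝ) (H : Matrix (Fin n) (Fin n) ℝ) (h1 : H *ᵥ u = 0) (h2 : u ᵥ* H = 0)
    (a b c r : ℝ) :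
    (r • (1 : Matrix (Fin n) (Fin n) ℝ) + c • vecMulVec t u) * (a • vecMulVec t t + b • H) *
      (r • (1 : Matrix (Fin n) (Fin n) ℝ) + c • vecMulVec u t) =
    ((r + c * (u ⬝ᵥ t)) ^ 2 * a) • vecMulVec t t + (r ^ 2 * b) • H := by
  have e1 : vecMulVec t u * vecMulVec t t = (u ⬝ᵥ t) • vecMulVec t t := by
    rw [vecMulVec_mul_vecMulVec, vecMulVec_smul]
  have e2 : vecMulVec t t * vecMulVec u t = (u ⬝ᵥ t) • vecMulVec t t := by
    rw [vecMulVec_mul_vecMulVec, vecMulVec_smul, dotProduct_comm]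
  have e3 : vecMulVec t u * H = 0 := by
    rw [vecMulVec_mul, h2, vecMulVec_zero]
  have e4 : H * vecMulVec u t = 0 := by
    rw [mul_vecMulVec, h1]
    ext i j
    simp [vecMulVec_apply]
  have e5 : (r • (1 : Matrix (Fin n) (Fin n) ℝ) + c • vecMulVec t u) *
      (a • vecMulVec t t + b • H) =
      ((r + c * (u ⬝ᵥ t)) * a) • vecMulVec t t + (r * b) • H := by
    simp only [add_mul, mul_add, Matrix.smul_mul, Matrix.mul_smul, Matrix.one_mul, e1, e3,
      smul_zero, add_zero]
    module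
  rw [e5]
  simp only [add_mul, mul_add, Matrix.smul_mul, Matrix.mul_smul, Matrix.mul_one, e2, e4,
    smul_zero, add_zero]
  module

lemma detS (t u : Fin n → ℝ) (r c : ℝ) (hr : r ≠ 0) (hn : 1 ≤ n) :
    (r • (1 : Matrix (Fin n) (Fin n) ℝ) + c • vecMulVec u t).det =
      (r + c * (u ⬝ᵥ t)) * r ^ (n - 1) := by
  have e1 : r • (1 : Matrix (Fin n) (Fin n) ℝ) + c • vecMulVec u t =
      r • (1 + replicateCol Unit ((c / r) • u) * replicateRow Unit t) := by
    rw [← vecMulVec_eq]
    ext i j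
    simp only [Matrix.add_apply, Matrix.smul_apply, vecMulVec_apply, smul_eq_mul, Pi.smul_apply]
    field_simp
  rw [e1, det_smul, det_one_add_replicateCol_mul_replicateRow, Fintype.card_fin,
    dotProduct_smul, dotProduct_comm]
  obtain ⟨m, rfl⟩ : ∃ m, n = m + 1 := ⟨n - 1, by omega⟩
  simp only [smul_eq_mul, Nat.add_sub_cancel]
  field_simp
  ring

/-- quotient of the volume densities -/
lemma dens_quot (hn : 1 ≤ n) (g h : Form n) (x y e : E n) (t : E n →L[ℝ] ℝ) (p q p' q' : ℝ)
    (hdet : 0 < (gm g x).det) (ht : 0 < t e) (hp : 0 < p) (hq : 0 < q) (hp' : 0 < p')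
    (hq' : 0 < q') (he : ∀ v, h.val x e v = 0)
    (hx : ∀ u v, g.val x u v = p ^ 2 * (t u * t v) + q ^ 2 * h.val x u v)
    (hy : ∀ u v, g.val y u v = p' ^ 2 * (t u * t v) + q' ^ 2 * h.val x u v) :
    dens g y / dens g x = p' / p * (q' / q) ^ (n - 1) := by
  have hdx : 0 < dens g x := Real.sqrt_pos.2 hdet
  set tv : Fin n → ℝ := fun i => t (ee i) with htv
  set H : Matrix (Fin n) (Fin n) ℝ := Matrix.of fun i j => h.val x (ee i) (ee j) with hH
  set u : Fin n → ℝ := fun i => e i with hu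
  have hut : u ⬝ᵥ tv = t e := by
    conv_rhs => rw [sum_ee e]
    simp only [map_sum, map_smul, smul_eq_mul, dotProduct, hu, htv]
  have h2 : u ᵥ* H = 0 := by
    ext j
    have h3 := he (ee j)
    conv_lhs at h3 => rw [sum_ee e]
    simp only [map_sum, map_smul, _root_.sum_apply, _root_.smul_apply, smul_eq_mul] at h3
    simpa only [vecMul, dotProduct, hu, hH, Matrix.of_apply, Pi.zero_apply] using h3
  have h1 : H *ᵥ u = 0 := by
    ext j
    have h3 := congrFun h2 j
    simp only [vecMul, dotProduct, Pi.zero_apply] at h3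
    simp only [mulVec, dotProduct, Pi.zero_apply]
    rw [← h3]
    refine Finset.sum_congr rfl fun i _ => ?_
    rw [mul_comm]
    congr 1
    simp only [hH, Matrix.of_apply]
    exact h.symm _ _ _
  have hgx : gm g x = p ^ 2 • vecMulVec tv tv + q ^ 2 • H := by
    ext i j
    simp only [gm, Matrix.of_apply, hx, Matrix.add_apply, Matrix.smul_apply, vecMulVec_apply,
      smul_eq_mul, htv, hH]
  have hgy : gm g y = p' ^ 2 • vecMulVec tv tv + q' ^ 2 • H := by
    ext i j
    simp only [gm, Matrix.of_apply, hy, Matrix.add_apply, Matrix.smul_apply, vecMulVec_apply,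
      smul_eq_mul, htv, hH]
  set r : ℝ := q' / q with hr
  set R : ℝ := p' / p with hR
  have hr0 : 0 < r := div_pos hq' hq
  have hR0 : 0 < R := div_pos hp' hp
  set c : ℝ := (R - r) / t e with hc
  have hRc : r + c * (u ⬝ᵥ tv) = R := by
    rw [hut, hc]
    field_simp
    ring
  set S : Matrix (Fin n) (Fin n) ℝ := r • (1 : Matrix (Fin n) (Fin n) ℝ) + c • vecMulVec u tv
    with hS
  have hSd : S.det = R * r ^ (n - 1) := by
    rw [hS, detS tv u r c hr0.ne' hn, hRc]
  have hST : Sᵀ = r • (1 : Matrix (Fin n) (Fin n) ℝ) + c • vecMulVec tv u := by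
    rw [hS]
    ext i j
    simp only [Matrix.transpose_apply, Matrix.add_apply, Matrix.smul_apply, vecMulVec_apply,
      smul_eq_mul, Matrix.one_apply, eq_comm (a := i) (b := j)]
    ring
  have hM : gm g y = Sᵀ * gm g x * S := by
    rw [hST, hgx, hS, mat tv u H h1 h2, hRc, hgy, hR, hr]
    congr 2
    · field_simp
    · field_simp
  have hdy : dens g y = R * r ^ (n - 1) * dens g x := by
    have h5 : 0 ≤ R * r ^ (n - 1) := by positivity
    unfold dens
    rw [hM, det_mul, det_mul, det_transpose, hSd,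
      show R * r ^ (n - 1) * (gm g x).det * (R * r ^ (n - 1)) =
        (R * r ^ (n - 1)) ^ 2 * (gm g x).det by ring,
      Real.sqrt_mul (by positivity), Real.sqrt_sq h5]
  rw [hdy]
  field_simp

end IBlk

/-- two blocks -/
theorem pr_Blk (h1 : MLS.StDens) : StBlk := by
  intro n hn g h e τ p q hg hte htau hp hq he hh hgv hbet x s
  have hdet := (h1 n g hg).1 x
  have hbx := hbet x s
  have hy : ∀ u v, g.val (x + s • e) u v =
      p (x + s • e) ^ 2 * (τ x u * τ x v) + q (x + s • e) ^ 2 * h.val x u v := by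
    intro u v
    rw [hgv, htau, hh]
  have hd := IBlk.dens_quot (by omega) g h x (x + s • e) e (τ x) (p x) (q x) (p (x + s • e))
    (q (x + s • e)) hdet (hte x) (hp x) (hq x) (hp _) (hq _) (he x) (hgv x) hy
  rw [hd]
  set R : ℝ := p (x + s • e) / p x with hR
  set r : ℝ := q (x + s • e) / q x with hr
  have hr0 : 0 < r := div_pos (hq _) (hq _)
  have hR0 : 0 < R := div_pos (hp _) (hp _)
  have hpx := hp x
  have hqx := hq x
  have hy2 : ∀ v, g.val (x + s • e) v v =
      R ^ 2 * (p x ^ 2 * (τ x v * τ x v)) + r ^ 2 * (q x ^ 2 * h.val x v v) := by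
    intro v
    rw [hy, hR, hr]
    field_simp
  have hA : ∀ v, 0 ≤ p x ^ 2 * (τ x v * τ x v) := fun v => by
    have := mul_self_nonneg (τ x v)
    positivity
  have hB : ∀ v, 0 ≤ q x ^ 2 * h.val x v v := fun v => by
    have := h.nonneg x v
    positivity
  obtain ⟨m, rfl⟩ : ∃ m, n = m + 3 := ⟨n - 3, by omega⟩
  have hsub : m + 3 - 1 = m + 2 := by omega
  rw [hsub] at hbx ⊢
  rcases hbx with ⟨ha, hb⟩ | ⟨ha, hb⟩
  · left
    have hr1 : 1 ≤ r := by
      by_contra hcon
      push Not at hcon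
      have : r ^ (m + 2) < 1 := pow_lt_one₀ hr0.le hcon (by omega)
      linarith
    have h2 : 1 ≤ R ^ 2 := one_le_pow₀ ha
    have h3 : 1 ≤ r ^ 2 := one_le_pow₀ hr1
    have h4 : R ^ 2 ≤ R * r ^ (m + 2) := by
      rw [sq]
      exact mul_le_mul_of_nonneg_left hb hR0.le
    have h5 : r ^ 2 ≤ R * r ^ (m + 2) := by
      calc r ^ 2 ≤ r ^ (m + 2) := pow_le_pow_right₀ hr1 (by omega)
        _ = 1 * r ^ (m + 2) := (one_mul _).symm
        _ ≤ R * r ^ (m + 2) := mul_le_mul_of_nonneg_right ha (by positivity)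
    intro v
    constructor
    · rw [hy2, hgv]
      nlinarith [mul_le_mul_of_nonneg_right h2 (hA v), mul_le_mul_of_nonneg_right h3 (hB v)]
    · rw [hy2, hgv]
      nlinarith [mul_le_mul_of_nonneg_right h4 (hA v), mul_le_mul_of_nonneg_right h5 (hB v)]
  · right
    have hr1 : r ≤ 1 := by
      by_contra hcon
      push Not at hcon
      have : 1 < r ^ (m + 2) := one_lt_pow₀ hcon (by omega)
      linarith
    have h2 : R ^ 2 ≤ 1 := pow_le_one₀ hR0.le ha
    have h3 : r ^ 2 ≤ 1 := pow_le_one₀ hr0.le hr1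
    have h4 : R * r ^ (m + 2) ≤ R ^ 2 := by
      rw [sq]
      exact mul_le_mul_of_nonneg_left hb hR0.le
    have h5 : R * r ^ (m + 2) ≤ r ^ 2 := by
      calc R * r ^ (m + 2) ≤ 1 * r ^ (m + 2) := mul_le_mul_of_nonneg_right ha (by positivity)
        _ = r ^ (m + 2) := one_mul _
        _ ≤ r ^ 2 := pow_le_pow_of_le_one hr0.le hr1 (by omega)
    intro v
    constructor
    · rw [hy2, hgv]
      nlinarith [mul_le_mul_of_nonneg_right h2 (hA v), mul_le_mul_of_nonneg_right h3 (hB v)]
    · rw [hy2, hgv]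
      nlinarith [mul_le_mul_of_nonneg_right h4 (hA v), mul_le_mul_of_nonneg_right h5 (hB v)]

end Pool.Agent.EC
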