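import Mathlib
import Pool.Agent.Work.MP_13b5d9_gt.EC.Stmts

/-!
# MP_13b5d9_gt, block EC, item Climb
-/

set_option autoImplicit false

open MeasureTheory Set Filter Topology
open scoped ContDiff ENNReal

namespace Pool.Agent.EC

open Pool.Agent.MLS

namespace IClimb

theorem cont_val {n : ℕ} (g : Form n) (x v e w : E n) :
    Continuous (fun τ : ℝ => g.val (x + τ • v) e w) := by
  have h1 : Continuous g.val := g.smooth.continuous
  have h2 : Continuous (fun τ : ℝ => x + τ • v) := by fun_prop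
  exact ((h1.comp h2).clm_apply continuous_const).clm_apply continuous_const

theorem quad {n : ℕ} (g : Form n) (b v e : E n) (l κ : ℝ) (hl : 0 < l)
    (he : g.val b e e = l ^ 2) :
    g.val b (v + (κ - g.val b e v / l ^ 2) • e) (v + (κ - g.val b e v / l ^ 2) • e) ≤
      l ^ 2 * κ ^ 2 + g.val b v v := by
  have hs : g.val b v e = g.val b e v := g.symm b v e
  have hl2 : l ^ 2 ≠ 0 := by positivity
  simp only [map_add, map_smul, ContinuousLinearMap.add_apply, ContinuousLinearMap.smul_apply,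
    smul_eq_mul, he, hs]
  set A : ℝ := g.val b e v with hA
  have h1 : A = l ^ 2 * (A / l ^ 2) := by field_simp
  set α : ℝ := A / l ^ 2 with hα
  have h2 : g.val b v v + (κ - α) * A + (κ - α) * (A + (κ - α) * l ^ 2) =
      l ^ 2 * κ ^ 2 + g.val b v v - l ^ 2 * α ^ 2 := by
    rw [h1]
    ring
  have h3 : 0 ≤ l ^ 2 * α ^ 2 := by positivity
  linarith

end IClimb

open IClimb in
theorem pr_Climb (h1 : MLS.StGd) : StClimb := by
  intro n g e l hl hg hT he x y
  set v : E n := y - x with hv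
  -- bound of `g v v`
  have hc1 : Continuous (fun τ : ℝ => g.val (x + τ • v) v v) := cont_val g x v v v
  obtain ⟨C, hC⟩ := (isCompact_Icc (a := (0 : ℝ)) (b := 1)).bddAbove_image hc1.continuousOn
  have hC' : ∀ τ ∈ Icc (0 : ℝ) 1, g.val (x + τ • v) v v ≤ max C 0 := fun τ hτ =>
    (hC (mem_image_of_mem _ hτ)).trans (le_max_left _ _)
  refine ⟨Real.sqrt (max C 0), Real.sqrt_nonneg _, fun κ => ?_⟩
  rw [Real.sq_sqrt (le_max_right _ _)]
  -- the curve
  set α : ℝ → ℝ := fun τ => g.val (x + τ • v) e v / l ^ 2 with hα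
  have hαc : Continuous α := (cont_val g x v e v).div_const _
  set ρ : ℝ → ℝ := fun τ => κ * τ - ∫ s in (0 : ℝ)..τ, α s with hρ
  have hρd : ∀ τ, HasDerivAt ρ (κ - α τ) τ := by
    intro τ
    have h2 : HasDerivAt (fun τ => ∫ s in (0 : ℝ)..τ, α s) (α τ) τ :=
      intervalIntegral.integral_hasDerivAt_right (hαc.intervalIntegrable _ _)
        (hαc.stronglyMeasurableAtFilter _ _) hαc.continuousAt
    have h3 : HasDerivAt (fun τ : ℝ => κ * τ) κ τ := by
      simpa using (hasDerivAt_id τ).const_mul κ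
    exact h3.sub h2
  set σ : ℝ → E n := fun τ => (x + τ • v) + ρ τ • e with hσ
  have hσd : ∀ τ, HasDerivAt σ (v + (κ - α τ) • e) τ := by
    intro τ
    have h2 : HasDerivAt (fun τ : ℝ => x + τ • v) v τ := by
      have h3 : HasDerivAt (fun τ : ℝ => τ • v) ((1 : ℝ) • v) τ :=
        (hasDerivAt_id τ).smul_const v
      rw [one_smul] at h3
      exact h3.const_add x
    exact h2.add ((hρd τ).smul_const e)
  have hσ' : deriv σ = fun τ => v + (κ - α τ) • e := funext fun τ => (hσd τ).deriv
  have hσc : ContDiff ℝ 1 σ := by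
    rw [contDiff_one_iff_deriv]
    refine ⟨fun τ => (hσd τ).differentiableAt, ?_⟩
    rw [hσ']
    fun_prop
  have h0 : σ 0 = x := by simp [hσ, hρ]
  have h1' : σ 1 = y + (κ - aa g e x y / l ^ 2) • e := by
    have h4 : ∫ s in (0 : ℝ)..1, α s = aa g e x y / l ^ 2 := by
      rw [hα, intervalIntegral.integral_div]
      rfl
    simp only [hσ, hρ, h4, one_smul, mul_one, hv]
    congr 1
    abel
  have hb := (h1 n g).2.2.2 σ 0 1 hσc zero_le_one
  rw [h0, h1'] at hb
  refine hb.trans ?_
  -- bound of the integrand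
  have hbd : ∀ τ ∈ Icc (0 : ℝ) 1, nrm g (σ τ) (deriv σ τ) ≤
      Real.sqrt (l ^ 2 * κ ^ 2 + max C 0) := by
    intro τ hτ
    rw [hσ']
    unfold nrm
    apply Real.sqrt_le_sqrt
    have h5 : g.val (σ τ) = g.val (x + τ • v) := hT (x + τ • v) (ρ τ)
    rw [h5]
    refine (quad g (x + τ • v) v e l κ hl (he _)).trans ?_
    have h6 := hC' τ hτ
    linarith
  have hci : Continuous (fun τ => nrm g (σ τ) (deriv σ τ)) := by
    unfold nrm
    rw [hσ']
    apply Real.continuous_sqrt.comp
    have h7 : Continuous (fun τ => g.val (σ τ)) := g.smooth.continuous.comp hσc.continuous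
    have h8 : Continuous (fun τ => v + (κ - α τ) • e) := by fun_prop
    exact (h7.clm_apply h8).clm_apply h8
  calc ∫ t in (0 : ℝ)..1, nrm g (σ t) (deriv σ t)
      ≤ ∫ _ in (0 : ℝ)..1, Real.sqrt (l ^ 2 * κ ^ 2 + max C 0) :=
        intervalIntegral.integral_mono_on zero_le_one (hci.intervalIntegrable _ _)
          (continuous_const.intervalIntegrable _ _) hbd
    _ = Real.sqrt (l ^ 2 * κ ^ 2 + max C 0) := by simp

end Pool.Agent.EC
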