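import Pool.Agent.Work.MP_13b5d9_gt.EC.Stmts

set_option autoImplicit false

/-!
# MP_13b5d9_gt, block EC: conformal metrics satisfy `Between`
-/

open MeasureTheory Set Filter Topology
open scoped ContDiff ENNReal

namespace Pool.Agent.EC

open Pool.Agent.MLS

/-- item `StConf` -/
theorem pr_Conf (h1 : MLS.StDens) : StConf := by
  intro n hn g H e f hg hf hc hT x s
  set y : E n := x + s • e with hy
  set q : ℝ := f y / f x with hq
  have hfx := hf x
  have hfy := hf y
  have hq0 : 0 < q := div_pos hfy hfx
  have hval : ∀ u v, g.val y u v = q ^ 2 * g.val x u v := by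
    intro u v
    rw [hc y, hc x, hy, hT x s, ← hy, hq]
    field_simp
  have hgm : gm g y = (q ^ 2) • gm g x := by
    ext i j
    simp [gm, hval]
  have hdx : 0 < (gm g x).det := (h1 n g hg).1 x
  have hdet : (gm g y).det = (q ^ n) ^ 2 * (gm g x).det := by
    rw [hgm, Matrix.det_smul, Fintype.card_fin]
    ring
  have hdens : dens g y = q ^ n * dens g x := by
    unfold dens
    rw [hdet, Real.sqrt_mul (by positivity), Real.sqrt_sq (by positivity)]
  have hdp : 0 < dens g x := Real.sqrt_pos.mpr hdx
  have hJ : dens g y / dens g x = q ^ n := by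
    rw [hdens]
    field_simp
  rw [hJ]
  rcases le_total 1 q with h | h
  · left
    intro v
    have hv := g.nonneg x v
    rw [hval]
    constructor
    · nlinarith [one_le_pow₀ h (n := 2)]
    · exact mul_le_mul_of_nonneg_right (pow_le_pow_right₀ h hn) hv
  · right
    intro v
    have hv := g.nonneg x v
    rw [hval]
    constructor
    · nlinarith [pow_le_one₀ hq0.le h (n := 2)]
    · exact mul_le_mul_of_nonneg_right (pow_le_pow_of_le_one hq0.le h hn) hv

end Pool.Agent.EC
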