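import Mathlib
import Pool.Agent.Work.MP_13b5d9_gt.EC.Stmts

set_option autoImplicit false

/-!
# Item Cst: the vertical vector has constant length
-/

open MeasureTheory Set Filter Topology
open scoped ContDiff

namespace Pool.Agent.EC

open Pool.Agent.MLS

namespace ICst

/-- Translations along `e` preserve the lengths of paths. -/
lemma pathLen_add {n : ℕ} {g : Form n} {e : E n} (hT : TInv g e) (s : ℝ) {x y : E n} {l : ℝ}
    (h : PathLen g x y l) : PathLen g (x + s • e) (y + s • e) l := by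
  induction h with
  | refl x => exact PathLen.refl _
  | cons c a b y l hc hab h ih =>
    have h1 := PathLen.cons (g := g) (fun t => c t + s • e) a b (y + s • e) l
      (hc.add contDiff_const) hab ih
    have h2 : (∫ t in a..b, nrm g (c t + s • e) (deriv (fun t => c t + s • e) t)) =
        ∫ t in a..b, nrm g (c t) (deriv c t) := by
      refine intervalIntegral.integral_congr fun t _ => ?_
      simp only [nrm, deriv_add_const]
      rw [hT (c t) s]
    rw [h2] at h1
    exact h1

/-- Translations along `e` are isometries. -/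
lemma gd_add {n : ℕ} {g : Form n} {e : E n} (hT : TInv g e) (s : ℝ) (x y : E n) :
    gd g (x + s • e) (y + s • e) = gd g x y := by
  unfold gd
  congr 1
  ext l
  simp only [mem_ofPred_eq]
  refine ⟨fun h => ?_, fun h => pathLen_add hT s h⟩
  have h1 := pathLen_add hT (-s) h
  simpa [neg_smul, add_assoc] using h1

/-- The function `q` is continuous and its derivative is given by the derivative of the form. -/
lemma hasFDerivAt_q {n : ℕ} (g : Form n) (e x : E n) :
    ∃ L : E n →L[ℝ] ℝ, HasFDerivAt (fun y => g.val y e e) L x ∧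
      ∀ w, L w = fderiv ℝ g.val x w e e := by
  have h1 : HasFDerivAt g.val (fderiv ℝ g.val x) x :=
    (g.smooth.differentiable (by norm_num) x).hasFDerivAt
  have h2 := (h1.clm_apply (hasFDerivAt_const e x)).clm_apply (hasFDerivAt_const e x)
  exact ⟨_, h2, fun w => by simp⟩

end ICst

open ICst in
theorem pr_Cst (h1 : MLS.StGd) (h2 : StLine) (h3 : StRotI) : StCst := by
  intro n G _ _ hG e hV g hR hI hM hT
  have hinv : ∀ (a : G) (x : E n), g.val (a • x) e e = g.val x e e := by
    intro a x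
    have := hI a x e e
    rwa [(h3 n G hG e hV).1 a x] at this
  have hcont : Continuous fun y : E n => g.val y e e :=
    (g.smooth.continuous.clm_apply continuous_const).clm_apply continuous_const
  obtain ⟨K, hK, hcov⟩ := hG.cocompact
  have hne : K.Nonempty := by
    obtain ⟨a, ha⟩ := hcov 0
    exact ⟨_, ha⟩
  obtain ⟨x₀, -, hx₀⟩ := hK.exists_isMinOn hne hcont.continuousOn
  obtain ⟨x₁, -, hx₁⟩ := hK.exists_isMaxOn hne hcont.continuousOn
  have hmin : ∀ x, g.val x₀ e e ≤ g.val x e e := by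
    intro x
    obtain ⟨a, ha⟩ := hcov x
    have := hx₀ ha
    simp only [mem_ofPred_eq] at this
    rwa [hinv] at this
  have hmax : ∀ x, g.val x e e ≤ g.val x₁ e e := by
    intro x
    obtain ⟨a, ha⟩ := hcov x
    have := hx₁ ha
    simp only [mem_ofPred_eq] at this
    rwa [hinv] at this
  have hc₀ : ∀ w, fderiv ℝ g.val x₀ w e e = 0 := by
    intro w
    obtain ⟨L, hL, hLw⟩ := hasFDerivAt_q g e x₀
    have h0 : L = 0 := IsLocalMin.hasFDerivAt_eq_zero (Eventually.of_forall hmin) hL
    rw [← hLw, h0]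
    rfl
  have hc₁ : ∀ w, fderiv ℝ g.val x₁ w e e = 0 := by
    intro w
    obtain ⟨L, hL, hLw⟩ := hasFDerivAt_q g e x₁
    have h0 : L = 0 := IsLocalMax.hasFDerivAt_eq_zero (Eventually.of_forall hmax) hL
    rw [← hLw, h0]
    rfl
  obtain ⟨-, hpm, -, -⟩ := h1 n g
  have key : ∀ T : ℝ, 0 ≤ T → Real.sqrt (g.val x₁ e e) * T ≤
      2 * gd g x₀ x₁ + Real.sqrt (g.val x₀ e e) * T := by
    intro T hTn
    have e1 := h2 n g e hV.ne hR hM hT x₁ hc₁ T hTn
    have e0 := h2 n g e hV.ne hR hM hT x₀ hc₀ T hTn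
    have t1 := hpm.tri x₁ x₀ (x₁ + T • e)
    have t2 := hpm.tri x₀ (x₀ + T • e) (x₁ + T • e)
    rw [gd_add hT] at t2
    have s1 := hpm.symm x₁ x₀
    linarith
  have hle : Real.sqrt (g.val x₁ e e) ≤ Real.sqrt (g.val x₀ e e) := by
    by_contra hlt
    push Not at hlt
    have hd : 0 < Real.sqrt (g.val x₁ e e) - Real.sqrt (g.val x₀ e e) := by linarith
    have hg0 := hpm.nonneg x₀ x₁
    have := key ((2 * gd g x₀ x₁ + 1) / (Real.sqrt (g.val x₁ e e) - Real.sqrt (g.val x₀ e e)))
      (by positivity)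
    have h5 : (Real.sqrt (g.val x₁ e e) - Real.sqrt (g.val x₀ e e)) *
        ((2 * gd g x₀ x₁ + 1) / (Real.sqrt (g.val x₁ e e) - Real.sqrt (g.val x₀ e e))) =
        2 * gd g x₀ x₁ + 1 := by
      field_simp
    nlinarith
  have hpos : 0 < g.val x₀ e e := hR x₀ e hV.ne
  refine ⟨Real.sqrt (g.val x₀ e e), Real.sqrt_pos.2 hpos, fun x => ?_⟩
  rw [Real.sq_sqrt hpos.le]
  have h6 : g.val x₁ e e ≤ g.val x₀ e e := (Real.sqrt_le_sqrt_iff hpos.le).1 hle
  exact le_antisymm ((hmax x).trans h6) (hmin x)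

end Pool.Agent.EC
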