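import Mathlib
import Pool.Agent.Work.MP_13b5d9_gt.EC.Stmts

set_option autoImplicit false

/-!
# MP_13b5d9_gt, block EC, item Invar: invariance under the flow
-/

open MeasureTheory Set Filter Topology
open scoped ContDiff ENNReal

namespace Pool.Agent.EC

open Pool.Agent.MLS

namespace IInvar

/-- the sum of the two energies is at most twice the bound -/
theorem sum_le (h4 : StRotI) (h5 : StPair) (h6 : StUnfE) (h7 : MLS.StTrI) (h8 : MLS.StDens)
    (n : ℕ) (G : Type) [Group G] [MulAction G (E n)] (hc : Cocompact n G) (e : E n)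
    (hv : Vert n G e) (g : Form n) (hg : Riem g) (hi : Inv G g) (hb : Between g e)
    (χ : E n → ℝ) (hχ : PU G χ) (s : ℝ) :
    En χ g (rot g e s) + En χ g (rot g e (-s)) ≤ 2 * (n * Vl χ g) := by
  obtain ⟨-, -, hrot⟩ := h4 n G hc e hv
  obtain ⟨-, ht2, -⟩ := h7 n G hc g (rot g e s) hg hi (hrot g hi s)
  obtain ⟨hu1, hu2, hu3⟩ := h7 n G hc g (rot g e (-s)) hg hi (hrot g hi (-s))
  obtain ⟨-, hd, -⟩ := h8 n g hg
  have cχ : Continuous χ := hχ.smooth.continuous
  have ct : Continuous (tr g (rot g e s)) := ht2.continuous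
  have cu : Continuous (tr g (rot g e (-s))) := hu2.continuous
  have cd : Continuous (dens g) := hd.continuous
  have csh : Continuous (fun x : E n => x + s • e) := continuous_id.add continuous_const
  have cu' : Continuous (fun x : E n => tr g (rot g e (-s)) (x + s • e)) := cu.comp csh
  have cd' : Continuous (fun x : E n => dens g (x + s • e)) := cd.comp csh
  have hE2 : En χ g (rot g e (-s)) =
      ∫ x, χ x * (tr g (rot g e (-s)) (x + s • e) * dens g (x + s • e)) :=
    (h6 n G hc e hv g hg hi χ hχ (tr g (rot g e (-s))) cu hu3 hu1 s).symm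
  have hV : Vl χ g = ∫ x, χ x * dens g (x + s • e) := by
    have h := h6 n G hc e hv g hg hi χ hχ (fun _ => 1) continuous_const (fun _ => zero_le_one)
      (fun _ _ => rfl) s
    simp only [one_mul] at h
    exact h.symm
  have i1 : Integrable (fun x => χ x * (tr g (rot g e s) x * dens g x)) :=
    (cχ.mul (ct.mul cd)).integrable_of_hasCompactSupport (hχ.cpt.mul_right)
  have i2 : Integrable (fun x => χ x * (tr g (rot g e (-s)) (x + s • e) * dens g (x + s • e))) :=
    (cχ.mul (cu'.mul cd')).integrable_of_hasCompactSupport (hχ.cpt.mul_right)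
  have i3 : Integrable (fun x => χ x * dens g x) :=
    (cχ.mul cd).integrable_of_hasCompactSupport (hχ.cpt.mul_right)
  have i4 : Integrable (fun x => χ x * dens g (x + s • e)) :=
    (cχ.mul cd').integrable_of_hasCompactSupport (hχ.cpt.mul_right)
  have hR : 2 * ((n : ℝ) * Vl χ g) = ∫ x, (n : ℝ) * (χ x * dens g x + χ x * dens g (x + s • e)) := by
    rw [integral_const_mul, integral_add i3 i4, ← hV]
    unfold Vl
    ring
  rw [hR, hE2]
  unfold En
  rw [← integral_add i1 i2]
  refine integral_mono (i1.add i2) ((i3.add i4).const_mul _) ?_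
  intro x
  have h := mul_le_mul_of_nonneg_left (h5 n g e hg hb x s) (hχ.nonneg x)
  beta_reduce
  calc χ x * (tr g (rot g e s) x * dens g x) +
        χ x * (tr g (rot g e (-s)) (x + s • e) * dens g (x + s • e))
      = χ x * (tr g (rot g e s) x * dens g x +
        tr g (rot g e (-s)) (x + s • e) * dens g (x + s • e)) := by ring
    _ ≤ χ x * (n * (dens g x + dens g (x + s • e))) := h
    _ = n * (χ x * dens g x + χ x * dens g (x + s • e)) := by ring

end IInvar

/-- a metric without conjugate points with `Between` is invariant under the flow -/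
theorem pr_Invar (h1 : MLS.StPU) (h2 : StMainS) (h3 : StSegR) (h4 : StRotI) (h5 : StPair)
    (h6 : StUnfE) (h7 : MLS.StTrI) (h8 : MLS.StDens) : StInvar := by
  intro n G _ _ hc e hv g hg hi hm hb
  obtain ⟨χ, hχ⟩ := h1 n G hc
  have hrot := (h4 n G hc e hv).2.2
  have hmain : ∀ s : ℝ, n * Vl χ g ≤ En χ g (rot g e s) ∧
      (En χ g (rot g e s) ≤ n * Vl χ g → g = rot g e s) := fun s =>
    h2 n G hc g (rot g e s) hg hi (hrot g hi s) (h3 n G hc e hv g hg hi hm s) χ hχ
  intro x s
  have hs := IInvar.sum_le h4 h5 h6 h7 h8 n G hc e hv g hg hi hb χ hχ s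
  have heq : g = rot g e s := (hmain s).2 (by linarith [(hmain (-s)).1])
  have h := congrArg (fun f : Form n => f.val x) heq
  exact h.symm

end Pool.Agent.EC
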