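import Mathlib
import Pool.Agent.Work.MP_13b5d9_gt.EC.Stmts

set_option autoImplicit false

/-!
# MP_13b5d9_gt, block EC: item Line (vertical geodesics)
-/

open MeasureTheory Set Filter Topology
open scoped ContDiff ENNReal

namespace Pool.Agent.EC

open Pool.Agent.MLS

namespace ILine

/-- the derivative of a translation invariant form is translation invariant -/
theorem fderiv_tinv {n : ℕ} {g : Form n} {e : E n} (h : TInv g e) (x : E n) (s : ℝ) :
    fderiv ℝ g.val (x + s • e) = fderiv ℝ g.val x := by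
  have h1 : (fun y : E n => g.val (y + s • e)) = g.val := funext fun y => h y s
  have h2 : fderiv ℝ (fun y : E n => g.val (y + s • e)) x = fderiv ℝ g.val (x + s • e) :=
    fderiv_comp_add_right (𝕜 := ℝ) (f := g.val) (x := x) (s • e)
  rw [← h2, h1]

theorem geo {n : ℕ} {g : Form n} {e : E n} (h : TInv g e) (x : E n)
    (hx : ∀ w, fderiv ℝ g.val x w e e = 0) (q : ℝ) :
    IsGeo g (fun t : ℝ => x + (t * q) • e) := by
  have hd : ∀ t : ℝ, HasDerivAt (fun t : ℝ => x + (t * q) • e) (q • e) t := by
    intro t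
    have h1 : HasDerivAt (fun t : ℝ => t * q) q t := by
      simpa using (hasDerivAt_id t).mul_const q
    simpa using (h1.smul_const e).const_add x
  have hd' : ∀ t : ℝ, deriv (fun t : ℝ => x + (t * q) • e) t = q • e := fun t => (hd t).deriv
  refine ⟨?_, ?_⟩
  · exact contDiff_const.add ((contDiff_id.mul contDiff_const).smul contDiff_const)
  · intro t w
    have h2 : (fun s : ℝ => g.val ((fun t : ℝ => x + (t * q) • e) s)
        (deriv (fun t : ℝ => x + (t * q) • e) s) w) = fun _ => g.val x (q • e) w := by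
      funext s
      rw [hd' s]
      show g.val (x + (s * q) • e) (q • e) w = _
      rw [h x (s * q)]
    have h3 : (1 / 2 * fderiv ℝ g.val ((fun t : ℝ => x + (t * q) • e) t) w
        (deriv (fun t : ℝ => x + (t * q) • e) t)
        (deriv (fun t : ℝ => x + (t * q) • e) t) : ℝ) = 0 := by
      rw [hd' t]
      show (1 / 2 * fderiv ℝ g.val (x + (t * q) • e) w (q • e) (q • e) : ℝ) = 0
      rw [fderiv_tinv h x (t * q)]
      simp [hx w]
    rw [h2, h3]
    exact hasDerivAt_const t _

end ILine

theorem pr_Line : StLine := by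
  intro n g e he hR hM hT x hx T hT0
  have hpos : 0 < g.val x e e := hR x e he
  set r : ℝ := Real.sqrt (g.val x e e) with hr
  have hr0 : 0 < r := Real.sqrt_pos.mpr hpos
  have hrr : r * r = g.val x e e := Real.mul_self_sqrt hpos.le
  have hG := ILine.geo hT x hx r⁻¹
  have hd : ∀ t : ℝ, deriv (fun t : ℝ => x + (t * r⁻¹) • e) t = r⁻¹ • e := by
    intro t
    have h1 : HasDerivAt (fun t : ℝ => t * r⁻¹) r⁻¹ t := by
      simpa using (hasDerivAt_id t).mul_const r⁻¹
    have h2 : HasDerivAt (fun t : ℝ => x + (t * r⁻¹) • e) (r⁻¹ • e) t := by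
      simpa using (h1.smul_const e).const_add x
    exact h2.deriv
  have hU : ∀ t : ℝ, g.val ((fun t : ℝ => x + (t * r⁻¹) • e) t)
      (deriv (fun t : ℝ => x + (t * r⁻¹) • e) t)
      (deriv (fun t : ℝ => x + (t * r⁻¹) • e) t) = 1 := by
    intro t
    rw [hd t]
    show g.val (x + (t * r⁻¹) • e) (r⁻¹ • e) (r⁻¹ • e) = 1
    rw [hT x (t * r⁻¹)]
    simp only [map_smul, _root_.smul_apply, smul_eq_mul]
    rw [← hrr]
    field_simp
  have hfin := hM _ hG hU 0 (r * T)
  have h0 : x + (0 * r⁻¹) • e = x := by simp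
  have h1 : x + (r * T * r⁻¹) • e = x + T • e := by
    have : r * T * r⁻¹ = T := by field_simp
    rw [this]
  have hfin' : gd g (x + (0 * r⁻¹) • e) (x + (r * T * r⁻¹) • e) = |0 - r * T| := hfin
  rw [h0, h1] at hfin'
  rw [hfin', zero_sub, abs_neg, abs_of_nonneg (mul_nonneg hr0.le hT0)]

end Pool.Agent.EC
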