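import Mathlib
import Pool.Agent.Work.MP_13b5d9_gt.EC.Stmts

set_option autoImplicit false

/-!
# MP_13b5d9_gt, block EC, item Mat: two positive definite matrices
-/

open scoped Matrix ComplexOrder MatrixOrder

namespace Pool.Agent.EC

namespace IMat

/-- trace of the product of two positive semidefinite matrices -/
theorem trace_mul_nonneg {n : ℕ} {A B : Matrix (Fin n) (Fin n) ℝ} (hA : A.PosSemidef)
    (hB : B.PosSemidef) : 0 ≤ (A * B).trace := by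
  obtain ⟨C, hC⟩ := CStarAlgebra.nonneg_iff_eq_star_mul_self.mp hA.nonneg
  rw [hC, Matrix.mul_assoc, Matrix.trace_mul_comm, Matrix.star_eq_conjTranspose]
  exact (hB.mul_mul_conjTranspose_same C).trace_nonneg

/-- the inverse is antitone -/
theorem inv_sub {n : ℕ} {P Q : Matrix (Fin n) (Fin n) ℝ} (hP : P.PosDef) (hQ : Q.PosDef)
    (h : (Q - P).PosSemidef) : (P⁻¹ - Q⁻¹).PosSemidef := by
  have uP : IsUnit P.det := (Matrix.isUnit_iff_isUnit_det _).mp hP.isUnit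
  have uQ : IsUnit Q.det := (Matrix.isUnit_iff_isUnit_det _).mp hQ.isUnit
  have hQs : (Q⁻¹)ᴴ = Q⁻¹ := hQ.inv.isHermitian
  have e1 : Q⁻¹ * (Q - P) * P⁻¹ = P⁻¹ - Q⁻¹ := by
    rw [Matrix.mul_sub, Matrix.sub_mul, Matrix.nonsing_inv_mul _ uQ, Matrix.one_mul,
      Matrix.mul_assoc, Matrix.mul_nonsing_inv _ uP, Matrix.mul_one]
  have e2 : P⁻¹ * (Q - P) * Q⁻¹ = P⁻¹ - Q⁻¹ := by
    rw [Matrix.mul_sub, Matrix.sub_mul, Matrix.nonsing_inv_mul _ uP, Matrix.one_mul,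
      Matrix.mul_assoc, Matrix.mul_nonsing_inv _ uQ, Matrix.mul_one]
  have e3 : P⁻¹ - Q⁻¹ = Q⁻¹ * (Q - P) * Q⁻¹ + Q⁻¹ * ((Q - P) * P⁻¹ * (Q - P)) * Q⁻¹ := by
    calc P⁻¹ - Q⁻¹ = Q⁻¹ * (Q - P) * P⁻¹ := e1.symm
      _ = Q⁻¹ * (Q - P) * (Q⁻¹ + (P⁻¹ - Q⁻¹)) := by rw [add_sub_cancel]
      _ = Q⁻¹ * (Q - P) * (Q⁻¹ + P⁻¹ * (Q - P) * Q⁻¹) := by rw [e2]
      _ = _ := by rw [Matrix.mul_add]; simp only [Matrix.mul_assoc]
  have hAs : (Q - P)ᴴ = Q - P := h.isHermitian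
  have h1 : (Q⁻¹ * (Q - P) * Q⁻¹).PosSemidef := by
    have := h.mul_mul_conjTranspose_same Q⁻¹
    rwa [hQs] at this
  have h2 : ((Q - P) * P⁻¹ * (Q - P)).PosSemidef := by
    have := hP.inv.posSemidef.mul_mul_conjTranspose_same (Q - P)
    rwa [hAs] at this
  have h3 : (Q⁻¹ * ((Q - P) * P⁻¹ * (Q - P)) * Q⁻¹).PosSemidef := by
    have := h2.mul_mul_conjTranspose_same Q⁻¹
    rwa [hQs] at this
  rw [e3]
  exact h1.add h3

/-- the trace of the product -/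
theorem trace_eq {n : ℕ} {P Q : Matrix (Fin n) (Fin n) ℝ} (hP : P.PosDef) (hQ : Q.PosDef) (J : ℝ) :
    ((P⁻¹ - Q⁻¹) * (J • P - Q)).trace = n * (1 + J) - ((P⁻¹ * Q).trace + J * (Q⁻¹ * P).trace) := by
  have uP : IsUnit P.det := (Matrix.isUnit_iff_isUnit_det _).mp hP.isUnit
  have uQ : IsUnit Q.det := (Matrix.isUnit_iff_isUnit_det _).mp hQ.isUnit
  rw [Matrix.sub_mul, Matrix.mul_sub, Matrix.mul_sub, Matrix.nonsing_inv_mul _ uQ,
    Matrix.mul_smul, Matrix.mul_smul, Matrix.nonsing_inv_mul _ uP]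
  simp only [Matrix.trace_sub, Matrix.trace_smul, Matrix.trace_one, Fintype.card_fin, smul_eq_mul]
  ring

end IMat

open IMat

theorem pr_Mat : StMat := by
  intro n P Q hP hQ J h
  have key : 0 ≤ ((P⁻¹ - Q⁻¹) * (J • P - Q)).trace := by
    rcases h with ⟨h1, h2⟩ | ⟨h1, h2⟩
    · exact trace_mul_nonneg (inv_sub hP hQ h1) h2
    · have := trace_mul_nonneg (inv_sub hQ hP h1) h2
      have e : (P⁻¹ - Q⁻¹) * (J • P - Q) = (Q⁻¹ - P⁻¹) * (Q - J • P) := by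
        rw [← neg_sub Q⁻¹ P⁻¹, ← neg_sub Q (J • P), neg_mul_neg]
      rwa [e]
  rw [trace_eq hP hQ J] at key
  linarith

end Pool.Agent.EC
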