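import Mathlib
import Pool.Agent.Work.MP_13b5d9_gt.EC.Stmts

set_option autoImplicit false

/-! # Item Pair: the symmetrized energy density -/

open MeasureTheory Set Filter Topology
open scoped ContDiff ENNReal

namespace Pool.Agent.EC

open Pool.Agent.MLS

namespace IPair

lemma sum_ee {n : ℕ} (v : E n) : v = ∑ i, v i • ee i := by
  ext j
  simp [ee, Pi.single_apply]

lemma val_expand {n : ℕ} (b : E n →L[ℝ] E n →L[ℝ] ℝ) (u v : E n) :
    b u v = ∑ i, ∑ j, u i * (b (ee i) (ee j)) * v j := by
  conv_lhs => rw [sum_ee u, sum_ee v]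
  simp only [map_sum, map_smul, _root_.sum_apply, _root_.smul_apply,
    smul_eq_mul, Finset.mul_sum]
  rw [Finset.sum_comm]
  refine Finset.sum_congr rfl fun i _ => Finset.sum_congr rfl fun j _ => ?_
  ring

lemma quad {n : ℕ} (g : Form n) (x : E n) (v : Fin n → ℝ) :
    v ⬝ᵥ (gm g x).mulVec v = g.val x (WithLp.toLp 2 v) (WithLp.toLp 2 v) := by
  rw [val_expand]
  simp only [dotProduct, Matrix.mulVec, gm, Matrix.of_apply, Finset.mul_sum]
  refine Finset.sum_congr rfl fun i _ => Finset.sum_congr rfl fun j _ => ?_
  ring

lemma herm {n : ℕ} (g : Form n) (x : E n) : (gm g x).IsHermitian := by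
  ext i j
  simp only [gm, Matrix.conjTranspose_apply, Matrix.of_apply, star_trivial]
  exact g.symm _ _ _

lemma gm_posDef {n : ℕ} (g : Form n) (hg : Riem g) (x : E n) : (gm g x).PosDef := by
  refine Matrix.PosDef.of_dotProduct_mulVec_pos (herm g x) ?_
  intro v hv
  have h1 : star v ⬝ᵥ (gm g x).mulVec v = g.val x (WithLp.toLp 2 v) (WithLp.toLp 2 v) := by
    rw [star_trivial]
    exact quad g x v
  rw [h1]
  apply hg
  intro h
  apply hv
  have := congrArg (fun w : E n => (w : Fin n → ℝ)) h
  simpa using this

/-- inequality of quadratic forms gives a positive semidefinite difference -/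
lemma psd {n : ℕ} (g : Form n) (x y : E n) (a b : ℝ)
    (h : ∀ v, b * g.val y v v ≤ a * g.val x v v) :
    (a • gm g x - b • gm g y).PosSemidef := by
  have hx := herm g x
  have hy := herm g y
  refine Matrix.PosSemidef.of_dotProduct_mulVec_nonneg ?_ ?_
  · ext i j
    have h1 := congrFun (congrFun hx i) j
    have h2 := congrFun (congrFun hy i) j
    simp only [Matrix.conjTranspose_apply, star_trivial, Matrix.sub_apply, Matrix.smul_apply,
      smul_eq_mul] at h1 h2 ⊢
    rw [h1, h2]
  · intro v
    rw [star_trivial, Matrix.sub_mulVec, Matrix.smul_mulVec, Matrix.smul_mulVec,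
      dotProduct_sub, dotProduct_smul, dotProduct_smul, quad, quad]
    simp only [smul_eq_mul]
    linarith [h (WithLp.toLp 2 v)]

end IPair

theorem pr_Pair (h1 : StMat) (h2 : MLS.StDens) : StPair := by
  intro n g e hg hB x s
  have hd : ∀ z, 0 < dens g z := fun z => Real.sqrt_pos.2 ((h2 n g hg).1 z)
  have hdx := hd x
  have hP := IPair.gm_posDef g hg x
  have hQ := IPair.gm_posDef g hg (x + s • e)
  have e1 : gm (rot g e s) x = gm g (x + s • e) := rfl
  have e2 : gm (rot g e (-s)) (x + s • e) = gm g x := by
    have h3 : x + s • e + (-s) • e = x := by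
      rw [neg_smul]
      abel
    ext i j
    simp only [gm, rot, Matrix.of_apply, h3]
  have key := h1 n (gm g x) (gm g (x + s • e)) hP hQ (dens g (x + s • e) / dens g x) (by
    rcases hB x s with h | h
    · left
      constructor
      · have h3 := IPair.psd g (x + s • e) x 1 1 (fun v => by
          rw [one_mul, one_mul]
          exact (h v).1)
        rwa [one_smul, one_smul] at h3
      · have h3 := IPair.psd g x (x + s • e) (dens g (x + s • e) / dens g x) 1 (fun v => by
          rw [one_mul]
          exact (h v).2)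
        rwa [one_smul] at h3
    · right
      constructor
      · have h3 := IPair.psd g x (x + s • e) 1 1 (fun v => by
          rw [one_mul, one_mul]
          exact (h v).1)
        rwa [one_smul, one_smul] at h3
      · have h3 := IPair.psd g (x + s • e) x 1 (dens g (x + s • e) / dens g x) (fun v => by
          rw [one_mul]
          exact (h v).2)
        rwa [one_smul] at h3)
  have e3 : tr g (rot g e s) x = ((gm g x)⁻¹ * gm g (x + s • e)).trace := rfl
  have e4 : tr g (rot g e (-s)) (x + s • e) = ((gm g (x + s • e))⁻¹ * gm g x).trace := by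
    rw [tr, e2]
  rw [e3, e4]
  have h5 := mul_le_mul_of_nonneg_right key hdx.le
  have h6 : dens g (x + s • e) / dens g x * dens g x = dens g (x + s • e) :=
    div_mul_cancel₀ _ hdx.ne'
  calc ((gm g x)⁻¹ * gm g (x + s • e)).trace * dens g x +
        ((gm g (x + s • e))⁻¹ * gm g x).trace * dens g (x + s • e)
      = (((gm g x)⁻¹ * gm g (x + s • e)).trace + dens g (x + s • e) / dens g x *
          ((gm g (x + s • e))⁻¹ * gm g x).trace) * dens g x := by
        rw [add_mul, mul_right_comm, h6]
        ring
    _ ≤ n * (1 + dens g (x + s • e) / dens g x) * dens g x := h5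
    _ = n * (dens g x + dens g (x + s • e)) := by
        rw [mul_assoc, add_mul, h6, one_mul]

end Pool.Agent.EC
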