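import Mathlib
import Pool.Agent.Work.MP_13b5d9_gt.EC.Stmts

set_option autoImplicit false

/-!
# Item RotI: the rotated form is invariant
-/

open MeasureTheory Set Filter Topology
open scoped ContDiff ENNReal

namespace Pool.Agent.EC

open Pool.Agent.MLS

namespace IRotI

variable {n : ℕ} {G : Type} [Group G] [MulAction G (E n)]

theorem hasFDerivAt_act (hG : Cocompact n G) (a : G) (x : E n) :
    HasFDerivAt (fun y : E n => a • y) (dac a x) x :=
  ((hG.smooth a).differentiable (by simp)).differentiableAt.hasFDerivAt

theorem dac_e (hG : Cocompact n G) {e : E n} (he : Vert n G e) (a : G) (x : E n) :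
    dac a x e = e := by
  have h1 : HasDerivAt (fun s : ℝ => x + s • e) e 0 := by
    have h := ((hasDerivAt_id (0 : ℝ)).smul_const e).const_add x
    simpa using h
  have h2 : HasDerivAt (fun s : ℝ => a • x + s • e) e 0 := by
    have h := ((hasDerivAt_id (0 : ℝ)).smul_const e).const_add (a • x)
    simpa using h
  have h0 : HasFDerivAt (fun y : E n => a • y) (dac a x) (x + (0 : ℝ) • e) := by
    rw [zero_smul, add_zero]
    exact hasFDerivAt_act hG a x
  have h3 : HasDerivAt (fun s : ℝ => a • (x + s • e)) (dac a x e) 0 := h0.comp_hasDerivAt 0 h1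
  have h4 : (fun s : ℝ => a • (x + s • e)) = fun s : ℝ => a • x + s • e := by
    funext s
    exact he.comm a x s
  rw [h4] at h3
  exact h3.unique h2

theorem dac_shift (hG : Cocompact n G) {e : E n} (he : Vert n G e) (a : G) (x : E n) (s : ℝ) :
    dac a (x + s • e) = dac a x := by
  have h1 : HasFDerivAt (fun y : E n => y + s • e) (ContinuousLinearMap.id ℝ (E n)) x :=
    (hasFDerivAt_id x).add_const (s • e)
  have h2 : HasFDerivAt (fun y : E n => a • (y + s • e))
      ((dac a (x + s • e)).comp (ContinuousLinearMap.id ℝ (E n))) x :=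
    (hasFDerivAt_act hG a (x + s • e)).comp x h1
  have h3 : HasFDerivAt (fun y : E n => a • y + s • e) (dac a x) x :=
    (hasFDerivAt_act hG a x).add_const (s • e)
  have h4 : (fun y : E n => a • (y + s • e)) = fun y : E n => a • y + s • e := by
    funext y
    exact he.comm a y s
  rw [h4, ContinuousLinearMap.comp_id] at h2
  exact h2.unique h3

end IRotI

open IRotI in
theorem pr_RotI : StRotI := by
  intro n G _ _ hG e he
  refine ⟨fun a x => dac_e hG he a x, fun a x s => dac_shift hG he a x s, ?_⟩
  intro g hg s a x u v
  change g.val (a • x + s • e) (dac a x u) (dac a x v) = g.val (x + s • e) u v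
  rw [← he.comm a x s, ← dac_shift hG he a x s]
  exact hg a (x + s • e) u v

end Pool.Agent.EC
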