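import Mathlib
import Pool.Agent.Work.MP_13b5d9_gt.EC.Stmts

set_option autoImplicit false

/-!
# MP_13b5d9_gt, block EC: item SegR, translations have bounded displacement
-/

open MeasureTheory Set Filter Topology
open scoped ContDiff ENNReal

namespace Pool.Agent.EC

open Pool.Agent.MLS

namespace ISegR

theorem bound (h1 : MLS.StGd) (h2 : MLS.StInvD) (h3 : MLS.StCtsD) (n : ℕ) (G : Type) [Group G]
    [MulAction G (E n)] (hG : Cocompact n G) (e : E n) (he : Vert n G e) (g : Form n)
    (hinv : Inv G g) (s : ℝ) : ∃ C : ℝ, 0 ≤ C ∧ ∀ x : E n, gd g x (x + s • e) ≤ C := by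
  obtain ⟨K, hK, hcov⟩ := hG.cocompact
  have hcont : Continuous (fun x : E n => gd g x (x + s • e)) :=
    (h3 n g).comp (continuous_id.prodMk (continuous_id.add continuous_const))
  obtain ⟨C, hC⟩ := hK.bddAbove_image hcont.continuousOn
  have hbd : ∀ x : E n, gd g x (x + s • e) ≤ C := by
    intro x
    obtain ⟨a, ha⟩ := hcov x
    have h := hC (mem_image_of_mem (fun x : E n => gd g x (x + s • e)) ha)
    have h' : gd g (a • x) (a • x + s • e) = gd g x (x + s • e) := by
      rw [← he.comm a x s]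
      exact (h2 n G hG g hinv).2 a x (x + s • e)
    have h'' : gd g (a • x) (a • x + s • e) ≤ C := h
    rwa [h'] at h''
  exact ⟨C, ((h1 n g).2.1.nonneg 0 (0 + s • e)).trans (hbd 0), hbd⟩

end ISegR

open ISegR

theorem pr_SegR (h1 : MLS.StGd) (h2 : MLS.StInvD) (h3 : MLS.StCtsD) : StSegR := by
  intro n G _ _ hG e he g _ hinv hmin s
  obtain ⟨C, hC0, hC⟩ := bound h1 h2 h3 n G hG e he g hinv s
  obtain ⟨_, hpm, _, hcurve⟩ := h1 n g
  refine ⟨2 * C, by positivity, ?_⟩
  intro c hc hu T hT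
  have hT' : gd g (c 0) (c T) = T := by
    rw [hmin c hc hu 0 T, zero_sub, abs_neg, abs_of_nonneg hT]
  have hcd : ContDiff ℝ 1 (fun t => c t + s • e) :=
    (hc.smooth.of_le (by norm_num)).add contDiff_const
  have hlen := hcurve (fun t => c t + s • e) 0 T hcd hT
  have hderiv : deriv (fun t => c t + s • e) = deriv c := by
    funext t
    exact deriv_add_const (s • e)
  rw [hderiv] at hlen
  have hint : (∫ t in (0 : ℝ)..T, nrm (rot g e s) (c t) (deriv c t)) =
      ∫ t in (0 : ℝ)..T, nrm g ((fun t => c t + s • e) t) (deriv c t) := rfl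
  rw [hint]
  have t1 := hpm.tri (c 0) (c 0 + s • e) (c T)
  have t2 := hpm.tri (c 0 + s • e) (c T + s • e) (c T)
  have t3 := hpm.symm (c T + s • e) (c T)
  have b1 := hC (c 0)
  have b2 := hC (c T)
  have hlen' : gd g (c 0 + s • e) (c T + s • e) ≤
      ∫ t in (0 : ℝ)..T, nrm g ((fun t => c t + s • e) t) (deriv c t) := hlen
  linarith

end Pool.Agent.EC
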