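import Mathlib
import Pool.Agent.Work.MP_13b5d9_gt.EC.Stmts

set_option autoImplicit false

/-!
# MP_13b5d9_gt, block EC, item Split
-/

open MeasureTheory Set Filter Topology
open scoped ContDiff ENNReal

namespace Pool.Agent.EC

open Pool.Agent.MLS

namespace ISplit

/-- a projection with kernel spanned by `e`, and a section -/
lemma exPS (m : ℕ) (e : E (m + 1)) (he : e ≠ 0) :
    ∃ (P : E (m + 1) →L[ℝ] E m) (S : E m →L[ℝ] E (m + 1)), (∀ p, P (S p) = p) ∧ P e = 0 ∧
      ∀ x, ∃ r : ℝ, x = S (P x) + r • e := by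
  have hfr : Module.finrank ℝ (E (m + 1)) = m + 1 := by simp
  have hfact : Fact (Module.finrank ℝ (E (m + 1)) = m + 1) := ⟨hfr⟩
  let F : Submodule ℝ (E (m + 1)) := (Submodule.span ℝ {e})ᗮ
  let b : OrthonormalBasis (Fin m) ℝ F := OrthonormalBasis.fromOrthogonalSpanSingleton m he
  let φ : F ≃L[ℝ] E m := b.repr.toContinuousLinearEquiv
  refine ⟨(φ : F →L[ℝ] E m).comp F.orthogonalProjectionOnto,
    F.subtypeL.comp (φ.symm : E m →L[ℝ] F), ?_, ?_, ?_⟩
  · intro p
    have h1 : F.orthogonalProjectionOnto ((φ.symm p : F) : E (m + 1)) = φ.symm p :=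
      Submodule.orthogonalProjectionOnto_mem_subspace_eq_self _
    have h2 : ((φ : F →L[ℝ] E m).comp F.orthogonalProjectionOnto)
        ((F.subtypeL.comp (φ.symm : E m →L[ℝ] F)) p) =
        φ (F.orthogonalProjectionOnto ((φ.symm p : F) : E (m + 1))) := rfl
    rw [h2, h1, φ.apply_symm_apply]
  · have h1 : F.orthogonalProjectionOnto e = 0 := by
      rw [Submodule.orthogonalProjectionOnto_eq_zero_iff]
      rw [Submodule.orthogonal_orthogonal]
      exact Submodule.mem_span_singleton_self e
    have h2 : ((φ : F →L[ℝ] E m).comp F.orthogonalProjectionOnto) e =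
        φ (F.orthogonalProjectionOnto e) := rfl
    rw [h2, h1, map_zero]
  · intro x
    obtain ⟨y, hy, z, hz, hyz⟩ :=
      Submodule.exists_add_mem_mem_orthogonal (K := Submodule.span ℝ {e}) x
    obtain ⟨r, hr⟩ := Submodule.mem_span_singleton.1 hy
    refine ⟨r, ?_⟩
    have h1 : F.orthogonalProjectionOnto y = 0 := by
      rw [Submodule.orthogonalProjectionOnto_eq_zero_iff]
      rw [Submodule.orthogonal_orthogonal]
      exact hy
    have h2 : F.orthogonalProjectionOnto z = ⟨z, hz⟩ :=
      Submodule.orthogonalProjectionOnto_mem_subspace_eq_self (⟨z, hz⟩ : F)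
    have h3 : (F.subtypeL.comp (φ.symm : E m →L[ℝ] F))
        (((φ : F →L[ℝ] E m).comp F.orthogonalProjectionOnto) x) =
        ((φ.symm (φ (F.orthogonalProjectionOnto x)) : F) : E (m + 1)) := rfl
    rw [h3, φ.symm_apply_apply, hyz, map_add, h1, h2, zero_add, hr]
    exact add_comm y z

/-- the function `T` grows linearly along `e` -/
lemma Tlin {n : ℕ} (T : E n → ℝ) (hT : ContDiff ℝ ∞ T) (e : E n) (l : ℝ)
    (h : ∀ x, fderiv ℝ T x e = l) (x : E n) (s : ℝ) : T (x + s • e) = T x + l * s := by
  have hd : ∀ t : ℝ, HasDerivAt (fun r : ℝ => T (x + r • e) - l * r) (l - l * 1) t := by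
    intro t
    have h1 : HasFDerivAt T (fderiv ℝ T (x + t • e)) (x + t • e) :=
      ((hT.differentiable (by simp)) _).hasFDerivAt
    have h2 : HasDerivAt (fun r : ℝ => x + r • e) e t := by
      have h3 := ((hasDerivAt_id t).smul_const e).const_add x
      simpa using h3
    have h4 : HasDerivAt (fun r : ℝ => T (x + r • e)) (fderiv ℝ T (x + t • e) e) t :=
      h1.comp_hasDerivAt t h2
    rw [h] at h4
    exact h4.sub ((hasDerivAt_id t).const_mul l)
  have h0 : ∀ t : ℝ, HasDerivAt (fun r : ℝ => T (x + r • e) - l * r) 0 t := by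
    intro t
    have := hd t
    rwa [mul_one, sub_self] at this
  have hc := is_const_of_deriv_eq_zero (f := fun r : ℝ => T (x + r • e) - l * r)
    (fun t => (h0 t).differentiableAt) (fun t => (h0 t).deriv) s 0
  simp only [zero_smul, add_zero, mul_zero, sub_zero] at hc
  linarith

/-- the linear functional of the potential on the base -/
noncomputable def lam {m : ℕ} (T : E (m + 1) → ℝ) (S : E m →L[ℝ] E (m + 1)) (p : E m) :
    E m →L[ℝ] ℝ := (fderiv ℝ T (S p)).comp S

/-- the bilinear form of the base -/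
noncomputable def kval {m : ℕ} (g : Form (m + 1)) (T : E (m + 1) → ℝ)
    (S : E m →L[ℝ] E (m + 1)) (p : E m) : E m →L[ℝ] E m →L[ℝ] ℝ :=
  ((ContinuousLinearMap.compL ℝ (E m) (E (m + 1)) ℝ).flip S).comp ((g.val (S p)).comp S) -
    (lam T S p).smulRight (lam T S p)

lemma kval_apply {m : ℕ} (g : Form (m + 1)) (T : E (m + 1) → ℝ)
    (S : E m →L[ℝ] E (m + 1)) (p u v : E m) :
    kval g T S p u v = g.val (S p) (S u) (S v) -
      fderiv ℝ T (S p) (S u) * fderiv ℝ T (S p) (S v) := rfl

lemma kval_smooth {m : ℕ} (g : Form (m + 1)) (T : E (m + 1) → ℝ) (hT : ContDiff ℝ ∞ T)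
    (S : E m →L[ℝ] E (m + 1)) : ContDiff ℝ ∞ (kval g T S) := by
  have h1 : ContDiff ℝ ∞ (fderiv ℝ T) := hT.fderiv_right (by norm_num)
  have h2 : ContDiff ℝ ∞ (lam T S) := (h1.comp S.contDiff).clm_comp contDiff_const
  have h3 : ContDiff ℝ ∞ (fun p => (g.val (S p)).comp S) :=
    (g.smooth.comp S.contDiff).clm_comp contDiff_const
  exact (contDiff_const.clm_comp h3).sub (h2.smulRight h2)

/-- completing the square -/
lemma square {n : ℕ} (g : Form n) (x e w : E n) (l : ℝ) (hl : 0 < l)
    (he : g.val x e e = l ^ 2) :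
    g.val x (w - (g.val x e w / l ^ 2) • e) (w - (g.val x e w / l ^ 2) • e) =
      g.val x w w - g.val x e w / l * (g.val x e w / l) := by
  have hs : g.val x w e = g.val x e w := g.symm x w e
  simp only [map_sub, map_smul, _root_.sub_apply, _root_.smul_apply, smul_eq_mul, he, hs]
  field_simp
  ring

end ISplit

theorem pr_Split (h1 : StRotI) : StSplit := by
  intro m G _ _ hG e hv g hR hI hTI l hl hlen T hT hdT
  obtain ⟨P, S, hPS, hPe, hx⟩ := ISplit.exPS m e hv.ne
  have hTe : ∀ x, fderiv ℝ T x e = l := by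
    intro x
    rw [hdT, hlen]
    field_simp
  have hlin := ISplit.Tlin T hT e l hTe
  have hl0 : l ≠ 0 := hl.ne'
  have hsq : ∀ (p u : E m), ISplit.kval g T S p u u =
      g.val (S p) (S u - (g.val (S p) e (S u) / l ^ 2) • e)
        (S u - (g.val (S p) e (S u) / l ^ 2) • e) := by
    intro p u
    rw [ISplit.square g (S p) e (S u) l hl (hlen _), ISplit.kval_apply, hdT]
  let k : Form m :=
    { val := ISplit.kval g T S
      smooth := ISplit.kval_smooth g T hT S
      symm := fun p u v => by
        rw [ISplit.kval_apply, ISplit.kval_apply, g.symm, mul_comm]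
      nonneg := fun p u => by
        rw [hsq]
        exact g.nonneg _ _ }
  have hPadd : ∀ (x : E (m + 1)) (s : ℝ), P (x + s • e) = P x := by
    intro x s
    rw [map_add, map_smul, hPe, smul_zero, add_zero]
  let Φ : E (m + 1) ≃ E m × ℝ :=
    { toFun := fun x => (P x, T x)
      invFun := fun q => S q.1 + ((q.2 - T (S q.1)) / l) • e
      left_inv := fun x => by
        obtain ⟨r, hr⟩ := hx x
        change S (P x) + ((T x - T (S (P x))) / l) • e = x
        have h2 : T x = T (S (P x)) + l * r := by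
          conv_lhs => rw [hr]
          exact hlin _ _
        have h3 : (T x - T (S (P x))) / l = r := by
          rw [h2]
          field_simp
          ring
        rw [h3, ← hr]
      right_inv := fun q => by
        change (P (S q.1 + ((q.2 - T (S q.1)) / l) • e),
          T (S q.1 + ((q.2 - T (S q.1)) / l) • e)) = q
        rw [hPadd, hPS, hlin]
        have h3 : T (S q.1) + l * ((q.2 - T (S q.1)) / l) = q.2 := by
          field_simp
          ring
        rw [h3] }
  have hΦ : ∀ x, Φ x = (P x, T x) := fun x => rfl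
  have hΦf : (Φ : E (m + 1) → E m × ℝ) = fun x => (P x, T x) := rfl
  have hΦs : (Φ.symm : E m × ℝ → E (m + 1)) =
    fun q => S q.1 + ((q.2 - T (S q.1)) / l) • e := rfl
  have hder : ∀ x u, fderiv ℝ Φ x u = (P u, fderiv ℝ T x u) := by
    intro x u
    have h2 : HasFDerivAt (Φ : E (m + 1) → E m × ℝ) (P.prod (fderiv ℝ T x)) x := by
      rw [hΦf]
      exact P.hasFDerivAt.prodMk ((hT.differentiable (by simp)) x).hasFDerivAt
    rw [h2.fderiv]
    rfl
  refine ⟨k, Φ, ?_⟩
  refine ⟨hl, ?_, ?_, ?_, ?_, ?_, ?_⟩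
  · intro p u hu
    change 0 < ISplit.kval g T S p u u
    rw [hsq]
    apply hR
    intro h0
    apply hu
    have h2 : P (S u - (g.val (S p) e (S u) / l ^ 2) • e) = 0 := by rw [h0, map_zero]
    rw [map_sub, map_smul, hPe, smul_zero, sub_zero, hPS] at h2
    exact h2
  · rw [hΦf]
    exact P.contDiff.prodMk hT
  · rw [hΦs]
    have h2 : ContDiff ℝ ∞ (fun q : E m × ℝ => S q.1) := S.contDiff.comp contDiff_fst
    have h3 : ContDiff ℝ ∞ (fun q : E m × ℝ => (q.2 - T (S q.1)) / l) :=
      (contDiff_snd.sub (hT.comp h2)).div_const l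
    exact h2.add (h3.smul contDiff_const)
  · intro x u v
    rw [hder, hder]
    change g.val x u v = ISplit.kval g T S (P x) (P u) (P v) + fderiv ℝ T x u * fderiv ℝ T x v
    obtain ⟨r, hr⟩ := hx x
    obtain ⟨a, ha⟩ := hx u
    obtain ⟨b, hb⟩ := hx v
    have hgx : g.val x = g.val (S (P x)) := by
      conv_lhs => rw [hr]
      exact hTI _ _
    rw [hdT, hdT, ISplit.kval_apply, hdT, hdT, hgx]
    have he := hlen (S (P x))
    have hs : g.val (S (P x)) (S (P u)) e = g.val (S (P x)) e (S (P u)) := g.symm _ _ _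
    have e1 : g.val (S (P x)) u v = g.val (S (P x)) (S (P u)) (S (P v)) +
        b * g.val (S (P x)) e (S (P u)) + (a * g.val (S (P x)) e (S (P v)) + a * b * l ^ 2) := by
      conv_lhs => rw [ha, hb]
      simp only [map_add, map_smul, _root_.add_apply, _root_.smul_apply, smul_eq_mul, he, hs]
      ring
    have e2 : g.val (S (P x)) e u = g.val (S (P x)) e (S (P u)) + a * l ^ 2 := by
      conv_lhs => rw [ha]
      simp only [map_add, map_smul, smul_eq_mul, he]
    have e3 : g.val (S (P x)) e v = g.val (S (P x)) e (S (P v)) + b * l ^ 2 := by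
      conv_lhs => rw [hb]
      simp only [map_add, map_smul, smul_eq_mul, he]
    rw [e1, e2, e3]
    field_simp
    ring
  · intro x s
    rw [hΦ, hΦ, hPadd, hlin]
  · intro a
    refine ⟨fun p => P (a • S p), T (a • (0 : E (m + 1))) - T 0, ?_⟩
    intro x
    rw [hΦ, hΦ]
    obtain ⟨r, hr⟩ := hx x
    have e1 : P (a • x) = P (a • S (P x)) := by
      conv_lhs => rw [hr, hv.comm]
      exact hPadd _ _
    have hda := (h1 (m + 1) G hG e hv).1 a
    have hsm := hG.smooth a
    have hdiff : ∀ y : E (m + 1), HasFDerivAt (fun y : E (m + 1) => T (a • y) - T y)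
        ((fderiv ℝ T (a • y)).comp (dac a y) - fderiv ℝ T y) y := by
      intro y
      have h2 : HasFDerivAt (fun y : E (m + 1) => a • y) (dac a y) y :=
        ((hsm.differentiable (by simp)) y).hasFDerivAt
      have h3 : HasFDerivAt T (fderiv ℝ T (a • y)) (a • y) :=
        ((hT.differentiable (by simp)) _).hasFDerivAt
      exact (h3.comp y h2).sub ((hT.differentiable (by simp)) y).hasFDerivAt
    have hz : ∀ y : E (m + 1), (fderiv ℝ T (a • y)).comp (dac a y) - fderiv ℝ T y = 0 := by
      intro y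
      ext1 v
      change fderiv ℝ T (a • y) (dac a y v) - fderiv ℝ T y v = 0
      rw [hdT, hdT]
      have h4 : g.val (a • y) e (dac a y v) = g.val y e v := by
        have h5 := hI a y e v
        rwa [hda] at h5
      rw [h4, sub_self]
    have hc := is_const_of_fderiv_eq_zero (𝕜 := ℝ) (f := fun y : E (m + 1) => T (a • y) - T y)
      (fun y => (hdiff y).differentiableAt) (fun y => by rw [(hdiff y).fderiv, hz y]) x 0
    have e2 : T (a • x) = T x + (T (a • (0 : E (m + 1))) - T 0) := by
      have hc' : T (a • x) - T x = T (a • (0 : E (m + 1))) - T 0 := hc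
      linarith
    rw [e1, e2]

end Pool.Agent.EC
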