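import Pool.Agent.Work.MP_13b5d9_gt.EC.Stmts

set_option autoImplicit false

/-!
# MP_13b5d9_gt, block EC, item ThK: assembly of theorem K
-/

open MeasureTheory Set Filter Topology
open scoped ContDiff ENNReal

namespace Pool.Agent.EC

open Pool.Agent.MLS

theorem pr_ThK (h1 : StInvar) (h2 : StCst) (h3 : StTri) (h4 : StPot) (h5 : StSplit) : StThK := by
  intro m G _ _ hC e hV g hR hI hM hB
  have hT : TInv g e := h1 (m + 1) G hC e hV g hR hI hM hB
  obtain ⟨l, hl, hq⟩ := h2 (m + 1) G hC e hV g hR hI hM hT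
  have ht := h3 (m + 1) g e l hl hV.ne hR hM hT hq
  obtain ⟨T, hTs, hTd⟩ := h4 (m + 1) g e l hl ht
  obtain ⟨k, Φ, hS⟩ := h5 m G hC e hV g hR hI hT l hl hq T hTs hTd
  exact ⟨hT, l, k, Φ, hS⟩

end Pool.Agent.EC
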