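import Pool.Agent.Work.MP_13b5d9_gt.EC.Stmts

set_option autoImplicit false

/-!
# MP_13b5d9_gt, block EC: item Tri (triangles)
-/

open MeasureTheory Set Filter Topology
open scoped ContDiff ENNReal

namespace Pool.Agent.EC

open Pool.Agent.MLS

namespace ITri

/-- translations along `e` map paths to paths of the same length -/
theorem path_trans {n : ℕ} {g : Form n} {e : E n} (hT : TInv g e) (s : ℝ) {x y : E n} {l : ℝ}
    (h : PathLen g x y l) : PathLen g (x + s • e) (y + s • e) l := by
  induction h with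
  | refl x => exact PathLen.refl _
  | cons c a b y l hc hab h ih =>
    have h1 : ContDiff ℝ 1 (fun t => c t + s • e) := hc.add contDiff_const
    have h2 := PathLen.cons (g := g) (fun t => c t + s • e) a b (y + s • e) l h1 hab ih
    have h3 : (∫ t in a..b, nrm g (c t + s • e) (deriv (fun t => c t + s • e) t)) =
        ∫ t in a..b, nrm g (c t) (deriv c t) := by
      congr 1
      funext t
      rw [deriv_add_const]
      unfold nrm
      rw [hT]
    rw [h3] at h2
    exact h2

/-- the distance is invariant under translations along `e` -/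
theorem gd_trans {n : ℕ} {g : Form n} {e : E n} (hT : TInv g e) (s : ℝ) (x y : E n) :
    gd g (x + s • e) (y + s • e) = gd g x y := by
  unfold gd
  congr 1
  ext l
  constructor
  · intro h
    have h1 := path_trans hT (-s) h
    have h2 : ∀ z : E n, z + s • e + -s • e = z := by
      intro z
      rw [neg_smul, add_neg_cancel_right]
    rw [h2, h2] at h1
    exact h1
  · intro h
    exact path_trans hT s h

theorem aa_symm {n : ℕ} (g : Form n) (e x y : E n) : aa g e y x = -aa g e x y := by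
  unfold aa
  have h1 := intervalIntegral.integral_comp_sub_left (a := (0 : ℝ)) (b := 1)
    (fun τ => g.val (y + τ • (x - y)) e (x - y)) 1
  rw [sub_self, sub_zero] at h1
  rw [← h1, ← intervalIntegral.integral_neg]
  congr 1
  funext τ
  have h2 : y + (1 - τ) • (x - y) = x + τ • (y - x) := by
    rw [sub_smul, one_smul, smul_sub, smul_sub]
    abel
  rw [h2, ← neg_sub y x, map_neg]

theorem sqrt_le {l κ K : ℝ} (hl : 0 < l) (hκ : 0 < κ) :
    Real.sqrt (l ^ 2 * κ ^ 2 + K ^ 2) ≤ l * κ + K ^ 2 / (2 * (l * κ)) := by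
  have hp : 0 < l * κ := mul_pos hl hκ
  apply Real.sqrt_le_iff.mpr
  constructor
  · positivity
  · have h1 : (l * κ + K ^ 2 / (2 * (l * κ))) ^ 2 =
        l ^ 2 * κ ^ 2 + K ^ 2 + (K ^ 2 / (2 * (l * κ))) ^ 2 := by
      field_simp
      ring
    rw [h1]
    nlinarith [sq_nonneg (K ^ 2 / (2 * (l * κ)))]

theorem tri_nonneg (h1 : StGd) (h2 : StLine) (h3 : StClimb) {n : ℕ} {g : Form n} {e : E n} {l : ℝ}
    (hl : 0 < l) (he : e ≠ 0) (hR : Riem g) (hM : Minz g) (hT : TInv g e)
    (hc : ∀ x, g.val x e e = l ^ 2) (x y z : E n) :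
    0 ≤ (aa g e x y + aa g e y z + aa g e z x) / l ^ 2 := by
  obtain ⟨-, hpm, -, -⟩ := h1 n g
  obtain ⟨K1, -, hK1⟩ := h3 n g e l hl hR hT hc x y
  obtain ⟨K2, -, hK2⟩ := h3 n g e l hl hR hT hc y z
  obtain ⟨K3, -, hK3⟩ := h3 n g e l hl hR hT hc z x
  have hd : ∀ w, fderiv ℝ g.val x w e e = 0 := by
    intro w
    have hdiff : DifferentiableAt ℝ g.val x := g.smooth.differentiable (by norm_num) x
    have h4 : HasFDerivAt (fun x => g.val x e e)
        (((fderiv ℝ g.val x).flip e).flip e) x := by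
      have h5 : HasFDerivAt (fun x => g.val x e) ((fderiv ℝ g.val x).flip e) x := by
        have := hdiff.hasFDerivAt.clm_apply (hasFDerivAt_const e x)
        simpa using this
      have := h5.clm_apply (hasFDerivAt_const e x)
      simpa using this
    have h6 : HasFDerivAt (fun x => g.val x e e) (0 : E n →L[ℝ] ℝ) x := by
      have : (fun x => g.val x e e) = fun _ => l ^ 2 := funext hc
      rw [this]
      exact hasFDerivAt_const _ _
    have h7 := h4.unique h6
    have h8 := DFunLike.congr_fun h7 w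
    simpa using h8
  set A := (aa g e x y + aa g e y z + aa g e z x) / l ^ 2 with hA
  by_contra hneg
  push Not at hneg
  set C := K1 ^ 2 + K2 ^ 2 + K3 ^ 2 with hC
  have hC0 : 0 ≤ C := by positivity
  have hl2 : 0 < l ^ 2 := by positivity
  have hden : 0 < -(2 * l ^ 2 * A) := by nlinarith
  set κ := (C + 1) / -(2 * l ^ 2 * A) with hκ
  have hκ0 : 0 < κ := by positivity
  have hκ1 : -(2 * l ^ 2 * A) * κ = C + 1 := by
    rw [hκ]
    exact mul_div_cancel₀ _ hden.ne'
  have hT0 : 0 ≤ 3 * κ - A := by linarith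
  have hline := h2 n g e he hR hM hT x hd (3 * κ - A) hT0
  rw [hc x, Real.sqrt_sq hl.le] at hline
  have e1 := hK1 κ
  have e2 := hK2 κ
  have e3 := hK3 κ
  have t2 := gd_trans hT (κ - aa g e x y / l ^ 2) y (z + (κ - aa g e y z / l ^ 2) • e)
  have t3 := gd_trans hT (κ - aa g e x y / l ^ 2 + (κ - aa g e y z / l ^ 2)) z
    (x + (κ - aa g e z x / l ^ 2) • e)
  have hend : x + (κ - aa g e z x / l ^ 2) • e +
      (κ - aa g e x y / l ^ 2 + (κ - aa g e y z / l ^ 2)) • e = x + (3 * κ - A) • e := by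
    rw [add_assoc, ← add_smul]
    congr 2
    rw [hA]
    ring
  have hmid : z + (κ - aa g e y z / l ^ 2) • e + (κ - aa g e x y / l ^ 2) • e =
      z + (κ - aa g e x y / l ^ 2 + (κ - aa g e y z / l ^ 2)) • e := by
    rw [add_assoc, ← add_smul]
    congr 2
    ring
  rw [hend] at t3
  rw [hmid] at t2
  have tr1 := hpm.tri x (y + (κ - aa g e x y / l ^ 2) • e)
    (z + (κ - aa g e x y / l ^ 2 + (κ - aa g e y z / l ^ 2)) • e)
  have tr2 := hpm.tri x (z + (κ - aa g e x y / l ^ 2 + (κ - aa g e y z / l ^ 2)) • e)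
    (x + (3 * κ - A) • e)
  have s1 := sqrt_le (K := K1) hl hκ0
  have s2 := sqrt_le (K := K2) hl hκ0
  have s3 := sqrt_le (K := K3) hl hκ0
  have hp : 0 < l * κ := mul_pos hl hκ0
  have hsum : K1 ^ 2 / (2 * (l * κ)) + K2 ^ 2 / (2 * (l * κ)) + K3 ^ 2 / (2 * (l * κ)) =
      C / (2 * (l * κ)) := by
    rw [hC]
    ring
  have hfin : l * (3 * κ - A) ≤ 3 * (l * κ) + C / (2 * (l * κ)) := by
    linarith
  have hq : -(l * A) ≤ C / (2 * (l * κ)) := by nlinarith
  rw [le_div_iff₀ (by positivity)] at hq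
  nlinarith

end ITri

open ITri in
theorem pr_Tri (h1 : MLS.StGd) (h2 : StLine) (h3 : StClimb) : StTri := by
  intro n g e l hl he hR hM hT hc x y z
  have hl2 : 0 < l ^ 2 := by positivity
  have a1 := tri_nonneg h1 h2 h3 hl he hR hM hT hc x y z
  have a2 := tri_nonneg h1 h2 h3 hl he hR hM hT hc x z y
  rw [aa_symm g e z x, aa_symm g e y z, aa_symm g e x y] at a2
  rw [le_div_iff₀ hl2, zero_mul] at a1 a2
  linarith

end Pool.Agent.EC
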