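import Pool.Agent.Work.MP_13b5d9_gt.EC.Stmts

set_option autoImplicit false

/-!
# MP_13b5d9_gt, block EC, item UnfE: unfolding along the flow
-/

open MeasureTheory Set Filter Topology
open scoped ContDiff ENNReal

namespace Pool.Agent.EC

open Pool.Agent.MLS

namespace IUnfE

/-- The partition of unity, in the extended nonnegative reals. -/
theorem tsum_ofReal {n : ℕ} {G : Type} [Group G] [MulAction G (E n)] {χ : E n → ℝ} (h : PU G χ)
    (x : E n) : ∑' a : G, ENNReal.ofReal (χ (a • x)) = 1 := by
  have h1 := h.sum x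
  rw [← ENNReal.ofReal_tsum_of_nonneg (fun a => h.nonneg _) h1.summable, h1.tsum_eq,
    ENNReal.ofReal_one]

/-- The translated partition of unity. -/
theorem tsum_ofReal_shift {n : ℕ} {G : Type} [Group G] [MulAction G (E n)] {χ : E n → ℝ}
    (h : PU G χ) {e : E n} (he : Vert n G e) (s : ℝ) (x : E n) :
    ∑' a : G, ENNReal.ofReal (χ (a • x + (-s) • e)) = 1 := by
  rw [← tsum_ofReal h (x + (-s) • e)]
  exact tsum_congr fun a => by rw [he.comm]

end IUnfE

open IUnfE in
theorem pr_UnfE (h1 : MLS.StUnf) (h2 : MLS.StDens) (h3 : MLS.StCnt) : StUnfE := by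
  intro n G _ _ hG e he g hR hI χ hχ f hf hf0 hfi s
  have : Countable G := h3 n G hG
  obtain ⟨_, hdc, hd⟩ := h2 n g hR
  obtain ⟨_, hmp⟩ := hd G hG hI
  have hdc' : Continuous (dens g) := hdc.continuous
  have hd0 : ∀ x, 0 ≤ dens g x := fun x => Real.sqrt_nonneg _
  have hdm : Measurable fun x => ENNReal.ofReal (dens g x) := hdc'.measurable.ennreal_ofReal
  have hχc : Continuous χ := hχ.smooth.continuous
  have hχm : Measurable fun x => ENNReal.ofReal (χ x) := hχc.measurable.ennreal_ofReal
  have hχsc : Continuous fun x => χ (x + (-s) • e) := hχc.comp (continuous_id.add continuous_const)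
  have hχsm : Measurable fun x => ENNReal.ofReal (χ (x + (-s) • e)) :=
    hχsc.measurable.ennreal_ofReal
  have hfm : Measurable fun x => ENNReal.ofReal (f x) := hf.measurable.ennreal_ofReal
  have key := h1 (E n) (volume.withDensity fun x => ENNReal.ofReal (dens g x)) G
    (fun a x => a • x) hmp (fun a b x => mul_smul a b x) (fun x => one_smul G x)
    (fun x => ENNReal.ofReal (χ (x + (-s) • e))) (fun x => ENNReal.ofReal (χ x))
    (fun x => ENNReal.ofReal (f x)) hχsm hχm hfm (tsum_ofReal_shift hχ he s) (tsum_ofReal hχ)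
    (fun a x => by simp only [hfi a x])
  have hm1 : Measurable fun x => ENNReal.ofReal (χ (x + (-s) • e)) * ENNReal.ofReal (f x) :=
    hχsm.mul hfm
  have hm2 : Measurable fun x => ENNReal.ofReal (χ x) * ENNReal.ofReal (f x) := hχm.mul hfm
  rw [lintegral_withDensity_eq_lintegral_mul _ hdm hm1,
    lintegral_withDensity_eq_lintegral_mul _ hdm hm2] at key
  have hsub : ∫ x, χ x * (f (x + s • e) * dens g (x + s • e)) =
      ∫ x, χ (x + (-s) • e) * (f x * dens g x) := by
    rw [← integral_add_right_eq_self (fun x => χ (x + (-s) • e) * (f x * dens g x)) (s • e)]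
    refine integral_congr_ae (Eventually.of_forall fun x => ?_)
    have h4 : x + s • e + (-s) • e = x := by
      rw [neg_smul, add_neg_cancel_right]
    simp only [h4]
  rw [hsub, integral_eq_lintegral_of_nonneg_ae, integral_eq_lintegral_of_nonneg_ae]
  · congr 1
    refine Eq.trans ?_ (key.trans ?_)
    · refine lintegral_congr fun x => ?_
      simp only [Pi.mul_apply]
      rw [ENNReal.ofReal_mul (hχ.nonneg _), ENNReal.ofReal_mul (hf0 x)]
      ring
    · refine lintegral_congr fun x => ?_
      simp only [Pi.mul_apply]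
      rw [ENNReal.ofReal_mul (hχ.nonneg x), ENNReal.ofReal_mul (hf0 x)]
      ring
  · exact Eventually.of_forall fun x => mul_nonneg (hχ.nonneg x) (mul_nonneg (hf0 x) (hd0 x))
  · exact (hχc.mul (hf.mul hdc')).aestronglyMeasurable
  · exact Eventually.of_forall fun x => mul_nonneg (hχ.nonneg _) (mul_nonneg (hf0 x) (hd0 x))
  · exact (hχsc.mul (hf.mul hdc')).aestronglyMeasurable

end Pool.Agent.EC
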