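import Pool.Agent.Work.MP_c9f990_an.Bd.B01
import Pool.Agent.Work.MP_25cd3b_gt.M.I_Avg
import Pool.Agent.Work.MP_25cd3b_gt.M.I_Bnd
import Pool.Agent.Work.MP_25cd3b_gt.M.I_Cnt
import Pool.Agent.Work.MP_25cd3b_gt.M.I_CtsD
import Pool.Agent.Work.MP_25cd3b_gt.M.I_Dens
import Pool.Agent.Work.MP_25cd3b_gt.M.I_EqF
import Pool.Agent.Work.MP_25cd3b_gt.M.I_EqG
import Pool.Agent.Work.MP_25cd3b_gt.M.I_Fib
import Pool.Agent.Work.MP_25cd3b_gt.M.I_Flow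
import Pool.Agent.Work.MP_25cd3b_gt.M.I_Fun
import Pool.Agent.Work.MP_25cd3b_gt.M.I_Gd
import Pool.Agent.Work.MP_25cd3b_gt.M.I_Geo1
import Pool.Agent.Work.MP_25cd3b_gt.M.I_Geo2
import Pool.Agent.Work.MP_25cd3b_gt.M.I_Hd
import Pool.Agent.Work.MP_25cd3b_gt.M.I_InvD
import Pool.Agent.Work.MP_25cd3b_gt.M.I_Key
import Pool.Agent.Work.MP_25cd3b_gt.M.I_LftA
import Pool.Agent.Work.MP_25cd3b_gt.M.I_LftM
import Pool.Agent.Work.MP_25cd3b_gt.M.I_Main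
import Pool.Agent.Work.MP_25cd3b_gt.M.I_MP
import Pool.Agent.Work.MP_25cd3b_gt.M.I_Op
import Pool.Agent.Work.MP_25cd3b_gt.M.I_Patch
import Pool.Agent.Work.MP_25cd3b_gt.M.I_Prop
import Pool.Agent.Work.MP_25cd3b_gt.M.I_PU
import Pool.Agent.Work.MP_25cd3b_gt.M.I_Split
import Pool.Agent.Work.MP_25cd3b_gt.M.I_Sub
import Pool.Agent.Work.MP_25cd3b_gt.M.I_Sym
import Pool.Agent.Work.MP_25cd3b_gt.M.I_Tr0
import Pool.Agent.Work.MP_25cd3b_gt.M.I_TrI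
import Pool.Agent.Work.MP_25cd3b_gt.M.I_Unf
import Pool.Agent.Work.MP_13b5d9_gt.EC.I_Blk
import Pool.Agent.Work.MP_13b5d9_gt.EC.I_Climb
import Pool.Agent.Work.MP_13b5d9_gt.EC.I_Conf
import Pool.Agent.Work.MP_13b5d9_gt.EC.I_Cst
import Pool.Agent.Work.MP_13b5d9_gt.EC.I_Invar
import Pool.Agent.Work.MP_13b5d9_gt.EC.I_Line
import Pool.Agent.Work.MP_13b5d9_gt.EC.I_Mat
import Pool.Agent.Work.MP_13b5d9_gt.EC.I_Pair
import Pool.Agent.Work.MP_13b5d9_gt.EC.I_Pot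
import Pool.Agent.Work.MP_13b5d9_gt.EC.I_RotI
import Pool.Agent.Work.MP_13b5d9_gt.EC.I_SegR
import Pool.Agent.Work.MP_13b5d9_gt.EC.I_Split
import Pool.Agent.Work.MP_13b5d9_gt.EC.I_ThK
import Pool.Agent.Work.MP_13b5d9_gt.EC.I_Tri
import Pool.Agent.Work.MP_13b5d9_gt.EC.I_UnfE
import Pool.Agent.Work.MP_13b5d9_gt.EC.Fin

set_option autoImplicit false

/-!
# MP_13b5d9_gt, block EC: assembly
-/

open MeasureTheory Set Filter Topology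
open scoped ContDiff ENNReal

namespace Pool.Agent.EC

namespace Asm

open Pool.Agent.MLS

theorem a_Gd : MLS.StGd := MLS.pr_Gd
theorem a_InvD : MLS.StInvD := MLS.pr_InvD
theorem a_CtsD : MLS.StCtsD := MLS.pr_CtsD MLS.pr_Bnd MLS.pr_Gd
theorem a_Fun : MLS.StFun := MLS.pr_Fun MLS.pr_Bnd MLS.pr_Gd
theorem a_Op : MLS.StOp := MLS.pr_Op
theorem a_Sub : MLS.StSub := MLS.pr_Sub MLS.pr_Bnd MLS.pr_Op
theorem a_Hd : MLS.StHd := MLS.pr_Hd MLS.pr_Op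
theorem a_Tr0 : MLS.StTr0 := MLS.pr_Tr0
theorem a_Prop : MLS.StProp := MLS.pr_Prop MLS.pr_Gd MLS.pr_InvD MLS.pr_Split a_Fun
theorem a_Geo1 : MLS.StGeo1 := MLS.pr_Geo1 a_Op a_Hd a_Tr0
theorem a_Geo2 : MLS.StGeo2 := MLS.pr_Geo2 a_Op a_Hd
theorem a_EqG : MLS.StEqG := MLS.pr_EqG a_Op
theorem a_EqF : MLS.StEqF := MLS.pr_EqF a_Geo1 a_Geo2 a_EqG
theorem a_LftA : MLS.StLftA := MLS.pr_LftA a_Op
theorem a_LftM : MLS.StLftM := MLS.pr_LftM a_Op a_LftA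
theorem a_Patch : MLS.StPatch :=
  MLS.pr_Patch (Pool.Agent.Work.MP_c9f990_an.Al.I_FLOW Pool.Agent.Work.MP_c9f990_an.Al.I_ODE)
theorem a_Flow : MLS.StFlow := MLS.pr_Flow a_Patch a_Sub a_Prop a_Gd a_Op a_Hd a_Tr0
theorem a_MP : MLS.StMP := MLS.pr_MP Pool.Agent.Work.MP_c9f990_an.Al.I_LIOU a_Tr0
theorem a_Avg : MLS.StAvg :=
  MLS.pr_Avg MLS.pr_Unf MLS.pr_Cnt a_Op a_MP a_LftA a_LftM a_EqF
theorem a_Fib : MLS.StFib := MLS.pr_Fib a_Op MLS.pr_Sym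
theorem a_Dens : MLS.StDens := MLS.pr_Dens
theorem a_TrI : MLS.StTrI := MLS.pr_TrI a_Dens
theorem a_PU : MLS.StPU := MLS.pr_PU

theorem a_MainS : StMainS :=
  MLS.mainS (MLS.keyS a_Avg a_Flow a_Sub a_Op a_Geo1 a_LftA) a_Fib a_Op a_Sub

theorem a_RotI : StRotI := pr_RotI
theorem a_SegR : StSegR := pr_SegR a_Gd a_InvD a_CtsD
theorem a_Pair : StPair := pr_Pair pr_Mat a_Dens
theorem a_UnfE : StUnfE := pr_UnfE MLS.pr_Unf a_Dens MLS.pr_Cnt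
theorem a_Invar : StInvar := pr_Invar a_PU a_MainS a_SegR a_RotI a_Pair a_UnfE a_TrI a_Dens
theorem a_Cst : StCst := pr_Cst a_Gd pr_Line a_RotI
theorem a_Tri : StTri := pr_Tri a_Gd pr_Line (pr_Climb a_Gd)
theorem a_Split : StSplit := pr_Split a_RotI
theorem a_ThK : StThK := pr_ThK a_Invar a_Cst a_Tri pr_Pot a_Split
theorem a_Fin : StFin := pr_Fin a_ThK (pr_Conf a_Dens) (pr_Blk a_Dens)

end Asm

end Pool.Agent.EC
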