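import Pool.Agent.Work.MP_25cd3b_gt.NC.I_Bd
import Pool.Agent.Work.MP_25cd3b_gt.NC.I_Cov
import Pool.Agent.Work.MP_25cd3b_gt.NC.I_Dist
import Pool.Agent.Work.MP_25cd3b_gt.NC.I_Exp
import Pool.Agent.Work.MP_25cd3b_gt.NC.I_Ga
import Pool.Agent.Work.MP_25cd3b_gt.NC.I_Gauss
import Pool.Agent.Work.MP_25cd3b_gt.NC.I_Geo
import Pool.Agent.Work.MP_25cd3b_gt.NC.I_Gx
import Pool.Agent.Work.MP_25cd3b_gt.NC.I_Inj
import Pool.Agent.Work.MP_25cd3b_gt.NC.I_Le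
import Pool.Agent.Work.MP_25cd3b_gt.NC.I_Lf
import Pool.Agent.Work.MP_25cd3b_gt.NC.I_Lift
import Pool.Agent.Work.MP_25cd3b_gt.NC.I_Lin
import Pool.Agent.Work.MP_25cd3b_gt.NC.I_Loc
import Pool.Agent.Work.MP_25cd3b_gt.NC.I_Minz
import Pool.Agent.Work.MP_25cd3b_gt.NC.I_One
import Pool.Agent.Work.MP_25cd3b_gt.NC.I_Spr
import Pool.Agent.Work.MP_13b5d9_gt.EC.Asm

set_option autoImplicit false

/-!
# MP_13b5d9_gt, block EC: assembly with the definition of conjugate points by Jacobi fields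
-/

open MeasureTheory Set Filter Topology
open scoped ContDiff ENNReal

namespace Pool.Agent.EC

namespace Asm

open Pool.Agent.MLS

theorem n_Ga : MLS.NcGa := MLS.pr_NcGa a_Op
theorem n_Geo : MLS.NcGeo := MLS.pr_NcGeo n_Ga
theorem n_Spr : MLS.NcSpr := MLS.pr_NcSpr a_Op a_Geo1 n_Geo
theorem n_Lin : MLS.NcLin := MLS.pr_NcLin a_Op a_Hd a_Tr0 n_Ga n_Spr
theorem n_Cov : MLS.NcCov := MLS.pr_NcCov n_Ga n_Geo
theorem n_Exp : MLS.NcExp := MLS.pr_NcExp a_Op a_Hd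
theorem n_Gauss : MLS.NcGauss := MLS.pr_NcGauss a_Op a_Hd a_Tr0 a_Geo1 n_Exp
theorem n_Inj : MLS.NcInj := MLS.pr_NcInj a_Op a_Geo1 n_Lin n_Cov n_Exp
theorem n_Bd : MLS.NcBd := MLS.pr_NcBd MLS.pr_NcLoc n_Exp n_Gauss
theorem n_Lf : MLS.NcLf := MLS.pr_NcLf MLS.pr_Bnd n_Exp MLS.pr_NcLoc MLS.pr_NcLift n_Bd
theorem n_Le : MLS.NcLe := MLS.pr_NcLe n_Lf
theorem n_One : MLS.NcOne := MLS.pr_NcOne n_Exp MLS.pr_NcLoc n_Lf
theorem n_Dist : MLS.NcDist := MLS.pr_NcDist a_Gd a_Op a_Geo1 n_Exp n_Le n_One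
theorem n_Gx : MLS.NcGx := MLS.pr_NcGx a_Geo2 n_Exp
theorem n_NC : MLS.StNC := MLS.pr_StNC a_Flow (MLS.pr_NcMinz n_Inj n_Dist n_Gx)

end Asm

end Pool.Agent.EC
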