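import Pool.Agent.Work.MP_13b5d9_gt.EC.GFin

set_option autoImplicit false

/-!
# MP_13b5d9_gt: rigidity of metrics without conjugate points which are conformal to a metric
invariant under the rotations of the circle, and of larger classes

A closed manifold `N = R^(m+1) / G` with a flow without fixed points which is covered by the
translations along a vector `e` (for example `N = M x S^1`, `M = R^m / G_0`, `G = G_0 x Z`, with the
rotations of the circle), `m ≥ 2`.  A metric without conjugate points on `N` which is conformal to a
metric invariant under the flow is itself invariant under the flow, and its universal covering is a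
Riemannian product with the line, the group acting by products of maps.  The same holds for the
classes `TwoBlocks`, `Between` and `EnergyLe`.  The definitions are in the files
`MP_25cd3b_gt/Gen/Metric`, `MP_25cd3b_gt/Gen/Length`, `MP_13b5d9_gt/EC/GDefs`.
-/

open scoped ContDiff

namespace Pool.Agent.Work.MP_13b5d9_gt.EC.Draft

open Pool.Agent.GM

theorem result : ∀ (m : ℕ) (G : Type) [Group G] [MulAction G (EuclideanSpace ℝ (Fin (m + 1)))],
    2 ≤ m → Cocompact (EuclideanSpace ℝ (Fin (m + 1))) G →
    ∀ e : EuclideanSpace ℝ (Fin (m + 1)), Vert G e →
    ∀ g : Frm (EuclideanSpace ℝ (Fin (m + 1))), Riem g → Inv G g → NoConj g →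
    (ConfInv g e ∨ TwoBlocks m g e ∨ Between (fun i => EuclideanSpace.single i (1 : ℝ)) g e ∨
      EnergyLe (fun i => EuclideanSpace.single i (1 : ℝ)) G g e) →
    Splits (EuclideanSpace ℝ (Fin m)) G g e := by
  intro m G _ _ hm hC e hV g hR hI hN h
  exact g_Fin m G hm hC e hV g hR hI hN h

end Pool.Agent.Work.MP_13b5d9_gt.EC.Draft
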