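import Pool.Agent.Work.MP_25cd3b_gt.Gen.Length

set_option autoImplicit false

/-!
# MP_13b5d9_gt, block EC: definitions of the final statement

A closed manifold with universal covering `V = R^n` is `R^n / G` (`Gen/Metric.lean`).  A flow on the
manifold whose lift to `R^n` is the group of translations along a vector `e` is the same as a vector
`e` such that the group commutes with these translations.  For `M x S^1` and `R^n = R^m x R`,
`G = pi_1(M) x Z`, the translations along the last coordinate are the lifts of the rotations of the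
circle.
-/

open MeasureTheory Set Filter Topology
open scoped ContDiff

namespace Pool.Agent.GM

/-- the translations along the vector `e` commute with the group, so they are the lifts of a flow
of the quotient (for a product with a circle: of the rotations of the circle) -/
structure Vert {V : Type} [NormedAddCommGroup V] [NormedSpace ℝ V] (G : Type) [Group G]
    [MulAction G V] (e : V) : Prop where
  ne : e ≠ 0
  comm : ∀ (a : G) (x : V) (s : ℝ), a • (x + s • e) = a • x + s • e

section

variable {V : Type} [NormedAddCommGroup V] [NormedSpace ℝ V]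

/-- the form is invariant under the translations along `e` -/
def TInv (g : Frm V) (e : V) : Prop := ∀ (x : V) (s : ℝ), g.val (x + s • e) = g.val x

/-- `g` is conformal to a form which is invariant under the translations along `e` -/
def ConfInv (g : Frm V) (e : V) : Prop :=
  ∃ (H : Frm V) (f : V → ℝ), TInv H e ∧ (∀ x, 0 < f x) ∧
    ∀ x u v, g.val x u v = f x ^ 2 * H.val x u v

/-- `g = p^2 τ^2 + q^2 h` with an invariant one form `τ`, `τ e > 0`, an invariant form `h ≥ 0` with
`h(e, .) = 0`, and positive functions `p`, `q` such that along every orbit the quotients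
`R = p y / p x`, `r = q y / q x` satisfy `1 ≤ R ≤ r^m` or `r^m ≤ R ≤ 1` -/
def TwoBlocks (m : ℕ) (g : Frm V) (e : V) : Prop :=
  ∃ (h : Frm V) (τ : V → V →L[ℝ] ℝ) (p q : V → ℝ), TInv h e ∧
    (∀ x v, h.val x e v = 0) ∧ (∀ x, 0 < τ x e) ∧ (∀ (x : V) (s : ℝ), τ (x + s • e) = τ x) ∧
    (∀ x, 0 < p x) ∧ (∀ x, 0 < q x) ∧
    (∀ x u v, g.val x u v = p x ^ 2 * (τ x u * τ x v) + q x ^ 2 * h.val x u v) ∧
    ∀ (x : V) (s : ℝ), (1 ≤ p (x + s • e) / p x ∧
        p (x + s • e) / p x ≤ (q (x + s • e) / q x) ^ m) ∨
      (p (x + s • e) / p x ≤ 1 ∧ (q (x + s • e) / q x) ^ m ≤ p (x + s • e) / p x)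

/-- for all points `x` and `y = x + s e` the form at `y` lies between the form at `x` and `J` times
the form at `x`, where `J` is the quotient of the volume densities at `y` and `x` -/
def Between {n : ℕ} (b : Fin n → V) (g : Frm V) (e : V) : Prop :=
  ∀ (x : V) (s : ℝ),
    (∀ v, g.val x v v ≤ g.val (x + s • e) v v ∧
      g.val (x + s • e) v v ≤ dens b g (x + s • e) / dens b g x * g.val x v v) ∨
    (∀ v, g.val (x + s • e) v v ≤ g.val x v v ∧
      dens b g (x + s • e) / dens b g x * g.val x v v ≤ g.val (x + s • e) v v)

/-- The universal covering is the Riemannian product of `(V', k)` and the line, in such a way that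
the translations along `e` are the translations of the line (with speed `l`) and every element of
the group is the product of a map of `V'` and a translation of the line. -/
structure SplitData {V' : Type} [NormedAddCommGroup V'] [NormedSpace ℝ V'] (G : Type) [Group G]
    [MulAction G V] (g : Frm V) (e : V) (l : ℝ) (k : Frm V') (Φ : V ≃ V' × ℝ) : Prop where
  pos : 0 < l
  riem : Riem k
  smooth : ContDiff ℝ ∞ Φ
  smooth_symm : ContDiff ℝ ∞ Φ.symm
  metric : ∀ x u v, g.val x u v = k.val (Φ x).1 (fderiv ℝ Φ x u).1 (fderiv ℝ Φ x v).1 +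
    (fderiv ℝ Φ x u).2 * (fderiv ℝ Φ x v).2
  trans : ∀ (x : V) (s : ℝ), Φ (x + s • e) = ((Φ x).1, (Φ x).2 + l * s)
  deck : ∀ a : G, ∃ (f : V' → V') (h : ℝ), ∀ x, Φ (a • x) = (f (Φ x).1, (Φ x).2 + h)

/-- The metric is invariant under the flow, and its universal covering is a Riemannian product.
If `e` is orthogonal to a hyperplane `ker λ` at all points (no cross terms), then the coordinate of
the line is `l` times the linear coordinate `λ`, up to a constant. -/
def Splits (V' : Type) [NormedAddCommGroup V'] [NormedSpace ℝ V'] (G : Type) [Group G]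
    [MulAction G V] (g : Frm V) (e : V) : Prop :=
  TInv g e ∧ ∃ (l : ℝ) (k : Frm V') (Φ : V ≃ V' × ℝ), SplitData G g e l k Φ ∧
    ∀ lam : V →L[ℝ] ℝ, lam e = 1 → (∀ x v, lam v = 0 → g.val x e v = 0) →
      ∀ x y, (Φ x).2 - (Φ y).2 = l * (lam x - lam y)

end

section

variable {V : Type} [NormedAddCommGroup V] [NormedSpace ℝ V] [MeasureSpace V]

/-- No translation along `e`, as a map of the closed manifold to itself, has more energy than the
identity: `∫ tr (g_x⁻¹ g_(x + s e)) dvol ≤ n vol` (integrals over a fundamental domain `D`). -/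
def EnergyLe {n : ℕ} (b : Fin n → V) (G : Type) [Group G] [MulAction G V] (g : Frm V) (e : V) :
    Prop :=
  ∃ D : Set V, MeasurableSet D ∧ (∀ x : V, ∃! a : G, a • x ∈ D) ∧
    ∀ s : ℝ, ∫ x in D, ((gram b g x)⁻¹ * gram b g (x + s • e)).trace * dens b g x ≤
      n * ∫ x in D, dens b g x

end

end Pool.Agent.GM
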