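import Pool.Agent.Work.MP_13b5d9_gt.EC.AsmN
import Pool.Agent.Work.MP_13b5d9_gt.EC.GDefs
import Pool.Agent.Work.MP_25cd3b_gt.Gen.Bridge
import Pool.Agent.Work.MP_25cd3b_gt.M.I_FD

set_option autoImplicit false

/-!
# MP_13b5d9_gt, block EC: the final theorem in terms of the definitions of `Gen` and `EC/GDefs`
-/

open MeasureTheory Set Filter Topology
open scoped ContDiff

namespace Pool.Agent.GM

open Pool.Agent.MLS (E ee)
open Pool.Agent.EC.Asm

namespace GFin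

/-- an invariant metric without conjugate points splits -/
theorem split_of_inv {m : ℕ} {G : Type} [Group G] [MulAction G (E (m + 1))]
    (hC : MLS.Cocompact (m + 1) G) {e : E (m + 1)} (hV : EC.Vert (m + 1) G e)
    {g : MLS.Form (m + 1)} (hR : MLS.Riem g) (hI : MLS.Inv G g) (hM : MLS.Minz g)
    (hT : EC.TInv g e) :
    ∃ (l : ℝ) (k : MLS.Form m) (Φ : E (m + 1) ≃ E m × ℝ), EC.SplitData m G g e l k Φ := by
  obtain ⟨l, hl, hq⟩ := a_Cst (m + 1) G hC e hV g hR hI hM hT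
  have ht := a_Tri (m + 1) g e l hl hV.ne hR hM hT hq
  obtain ⟨T, hTs, hTd⟩ := EC.pr_Pot (m + 1) g e l hl ht
  obtain ⟨k, Φ, hS⟩ := a_Split m G hC e hV g hR hI hT l hl hq T hTs hTd
  exact ⟨l, k, Φ, hS⟩

/-- the energy criterion -/
theorem inv_of_energy {n : ℕ} {G : Type} [Group G] [MulAction G (E n)]
    (hC : MLS.Cocompact n G) {e : E n} (hV : EC.Vert n G e)
    {g : MLS.Form n} (hR : MLS.Riem g) (hI : MLS.Inv G g) (hM : MLS.Minz g) {D : Set (E n)}
    (hD : MeasurableSet D) (hDG : ∀ x : E n, ∃! a : G, a • x ∈ D)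
    (hE : ∀ s : ℝ, ∫ x in D, MLS.tr g (EC.rot g e s) x * MLS.dens g x ≤
      n * ∫ x in D, MLS.dens g x) : EC.TInv g e := by
  obtain ⟨χ, hχ⟩ := a_PU n G hC
  have hFD : MLS.StFD := MLS.pr_FD MLS.pr_Unf MLS.pr_Cnt a_Dens
  intro x s
  have hIr : MLS.Inv G (EC.rot g e s) := (a_RotI n G hC e hV).2.2 g hI s
  obtain ⟨ht1, ht2, ht3⟩ := a_TrI n G hC g (EC.rot g e s) hR hI hIr
  have hmain := (a_MainS n G hC g (EC.rot g e s) hR hI hIr (a_SegR n G hC e hV g hR hI hM s) χ hχ).2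
  have h1 := hFD n G hC g hR hI χ hχ D hD hDG (MLS.tr g (EC.rot g e s)) ht2.continuous ht3 ht1
  have h2 := hFD n G hC g hR hI χ hχ D hD hDG (fun _ => 1) continuous_const
    (fun _ => zero_le_one) (fun _ _ => rfl)
  simp only [one_mul] at h2
  have h3 : EC.En χ g (EC.rot g e s) ≤ n * EC.Vl χ g := by
    unfold EC.En EC.Vl
    rw [← h1, ← h2]
    exact hE s
  have h4 := congrArg (fun f : MLS.Form n => f.val x) (hmain h3)
  exact h4.symm

/-- the conclusion in terms of the new definitions -/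
theorem splits_of {m : ℕ} {G : Type} [Group G] [MulAction G (E (m + 1))] {e : E (m + 1)}
    {g : Frm (E (m + 1))} (hT : EC.TInv (toF g) e)
    (hS : ∃ (l : ℝ) (k : MLS.Form m) (Φ : E (m + 1) ≃ E m × ℝ), EC.SplitData m G (toF g) e l k Φ) :
    Splits (E m) G g e := by
  obtain ⟨l, k, Φ, h⟩ := hS
  refine ⟨hT, l, ofF k, Φ, ⟨h.pos, h.riem, h.smooth, h.smooth_symm, h.metric, h.trans, h.deck⟩, ?_⟩
  intro lam hlam hg x y
  exact EC.second_coord h lam hlam hg x y

end GFin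

open GFin in
theorem g_Fin (m : ℕ) (G : Type) [Group G] [MulAction G (E (m + 1))] (hm : 2 ≤ m)
    (hC : Cocompact (E (m + 1)) G) (e : E (m + 1)) (hV : Vert G e) (g : Frm (E (m + 1)))
    (hR : Riem g) (hI : Inv G g) (hN : NoConj g)
    (h : ConfInv g e ∨ TwoBlocks m g e ∨ Between ee g e ∨ EnergyLe ee G g e) :
    Splits (E m) G g e := by
  have hC' : MLS.Cocompact (m + 1) G := (cocompact_iff G).2 hC
  have hV' : EC.Vert (m + 1) G e := ⟨hV.ne, hV.comm⟩
  have hR' : MLS.Riem (toF g) := hR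
  have hI' : MLS.Inv G (toF g) := (inv_iff G g).2 hI
  have hM : MLS.Minz (toF g) :=
    n_NC (m + 1) G hC' (toF g) hR' hI' ((noConj_iff n_Ga g hR).2 hN)
  have main : EC.TInv (toF g) e := by
    have hf : EC.ConfInv (toF g) e ∨ EC.TwoBlocks (toF g) e ∨ EC.Between (toF g) e →
        EC.TInv (toF g) e := fun hh =>
      (a_Fin m G hm hC' e hV' (toF g) hR' hI' hM hh).1
    rcases h with ⟨H, f, h1, h2, h3⟩ | ⟨h', τ, p, q, h1, h2, h3, h4, h5, h6, h7, h8⟩ | h | h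
    · exact hf (Or.inl ⟨toF H, f, h1, h2, h3⟩)
    · exact hf (Or.inr (Or.inl ⟨toF h', τ, p, q, h1, h2, h3, h4, h5, h6, h7, h8⟩))
    · exact hf (Or.inr (Or.inr h))
    · obtain ⟨D, hD, hDG, hE⟩ := h
      exact inv_of_energy hC' hV' hR' hI' hM hD hDG hE
  exact splits_of main (split_of_inv hC' hV' hR' hI' hM main)

end Pool.Agent.GM
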