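import Mathlib
import Pool.Agent.Work.MP_13b5d9_gt.EC.Stmts

set_option autoImplicit false

/-!
# MP_13b5d9_gt, block EC, item Pot: the potential
-/

open MeasureTheory Set Filter Topology
open scoped ContDiff ENNReal

namespace Pool.Agent.EC

open Pool.Agent.MLS

namespace IPot

/-- the derivative of a function whose increments are the segment integrals of a continuous
one form -/
theorem hasFDerivAt_of_segment {V : Type} [NormedAddCommGroup V] [NormedSpace ℝ V]
    (β : V → V →L[ℝ] ℝ) (hβ : Continuous β) (T : V → ℝ)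
    (hT : ∀ x h, T (x + h) - T x = ∫ τ in (0 : ℝ)..1, β (x + τ • h) h) (x : V) :
    HasFDerivAt T (β x) x := by
  rw [hasFDerivAt_iff_isLittleO_nhds_zero, Asymptotics.isLittleO_iff]
  intro ε hε
  obtain ⟨δ, hδ, hd⟩ := Metric.continuousAt_iff.1 hβ.continuousAt ε hε
  filter_upwards [Metric.ball_mem_nhds (0 : V) hδ] with h hh
  have hh' : ‖h‖ < δ := by simpa using hh
  have hc1 : Continuous fun τ : ℝ => β (x + τ • h) h :=
    (hβ.comp (continuous_const.add (continuous_id.smul continuous_const))).clm_apply
      continuous_const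
  have e1 : T (x + h) - T x - β x h = ∫ τ in (0 : ℝ)..1, (β (x + τ • h) h - β x h) := by
    rw [hT, intervalIntegral.integral_sub (hc1.intervalIntegrable _ _)
      (continuous_const.intervalIntegrable _ _), intervalIntegral.integral_const]
    simp
  rw [e1]
  have hb : ∀ τ ∈ Set.uIoc (0 : ℝ) 1, ‖β (x + τ • h) h - β x h‖ ≤ ε * ‖h‖ := by
    intro τ hτ
    rw [Set.uIoc_of_le zero_le_one] at hτ
    have h1 : dist (x + τ • h) x < δ := by
      rw [dist_eq_norm, add_sub_cancel_left, norm_smul, Real.norm_eq_abs,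
        abs_of_pos hτ.1]
      calc τ * ‖h‖ ≤ 1 * ‖h‖ := mul_le_mul_of_nonneg_right hτ.2 (norm_nonneg _)
        _ < δ := by rw [one_mul]; exact hh'
    have h2 := hd h1
    rw [dist_eq_norm] at h2
    rw [← sub_apply]
    exact (ContinuousLinearMap.le_opNorm _ _).trans
      (mul_le_mul_of_nonneg_right h2.le (norm_nonneg _))
  have h3 := intervalIntegral.norm_integral_le_of_norm_le_const hb
  rwa [sub_zero, abs_one, mul_one] at h3

end IPot

open IPot in
theorem pr_Pot : StPot := by
  intro n g e l hl htri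
  have hself : ∀ x : E n, aa g e x x = 0 := by
    intro x
    have h := htri x x x
    linarith
  have hanti : ∀ x y : E n, aa g e y x = -aa g e x y := by
    intro x y
    have h := htri x y x
    rw [hself] at h
    linarith
  have hinc : ∀ x h : E n, aa g e 0 (x + h) - aa g e 0 x =
      ∫ τ in (0 : ℝ)..1, g.val (x + τ • h) e h := by
    intro x h
    have h1 := htri 0 x (x + h)
    rw [hanti 0 (x + h)] at h1
    have h2 : aa g e x (x + h) = ∫ τ in (0 : ℝ)..1, g.val (x + τ • h) e h := by
      unfold aa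
      rw [add_sub_cancel_left]
    linarith
  let β : E n → E n →L[ℝ] ℝ := fun x => l⁻¹ • g.val x e
  have hβs : ContDiff ℝ ∞ β := (g.smooth.clm_apply contDiff_const).const_smul l⁻¹
  have hD : ∀ x, HasFDerivAt (fun y => l⁻¹ * aa g e 0 y) (β x) x := by
    refine hasFDerivAt_of_segment β hβs.continuous _ fun x h => ?_
    rw [← mul_sub, hinc, ← intervalIntegral.integral_const_mul]
    rfl
  have hfd : fderiv ℝ (fun y => l⁻¹ * aa g e 0 y) = β := funext fun x => (hD x).fderiv
  refine ⟨fun y => l⁻¹ * aa g e 0 y, ?_, fun x v => ?_⟩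
  · rw [contDiff_infty_iff_fderiv]
    refine ⟨fun x => (hD x).differentiableAt, ?_⟩
    rw [hfd]
    exact hβs
  · rw [hfd]
    show l⁻¹ * g.val x e v = g.val x e v / l
    rw [div_eq_inv_mul]

end Pool.Agent.EC
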